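import Pool.Agent.helper16.LSZ.F4

set_option linter.all false
set_option autoImplicit false

/-!
# Linear substitutions in the Fock space and the positivity of exchangeable copies (MP_2dd521_co)
-/

namespace Pool.Agent.helper61.TCM

open MvPolynomial Finset MeasureTheory
open scoped ComplexConjugate
open Pool.Agent.helper80.LSZ
open Pool.Agent.helper16.Fock

section sub

variable {S : Type*} [Fintype S] [DecidableEq S]
variable {σ : Type*} [Fintype σ] [DecidableEq σ]
variable {τ : Type*} [Fintype τ] [DecidableEq τ]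

/-- substitution of linear forms -/
noncomputable def sb (Λ : S → σ → ℂ) : MvPolynomial S ℂ →ₐ[ℂ] MvPolynomial σ ℂ :=
  aeval (fun s => ∑ i, C (Λ s i) * X i)

theorem sb_X (Λ : S → σ → ℂ) (s : S) : sb Λ (X s) = ∑ i, C (Λ s i) * X i := by
  unfold sb
  rw [aeval_X]

theorem sb_C (Λ : S → σ → ℂ) (a : ℂ) : sb Λ (C a) = C a := by
  unfold sb
  rw [aeval_C]
  rfl

theorem eval_sb (Λ : S → σ → ℂ) (z : σ → ℂ) (p : MvPolynomial S ℂ) :
    eval z (sb Λ p) = eval (fun s => ∑ i, Λ s i * z i) p := by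
  induction p using MvPolynomial.induction_on with
  | C a => rw [sb_C, eval_C, eval_C]
  | add p q hp hq => rw [map_add, map_add, map_add, hp, hq]
  | mul_X p s hp =>
    rw [map_mul, map_mul, map_mul, hp, sb_X, eval_X]
    congr 1
    rw [map_sum]
    exact Finset.sum_congr rfl (fun i _ => by rw [map_mul, eval_C, eval_X])

theorem pderiv_sb (Λ : S → σ → ℂ) (i : σ) (p : MvPolynomial S ℂ) :
    pderiv i (sb Λ p) = ∑ s, C (Λ s i) * sb Λ (pderiv s p) := by
  induction p using MvPolynomial.induction_on with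
  | C a =>
    rw [sb_C, pderiv_C]
    symm
    refine Finset.sum_eq_zero (fun s _ => ?_)
    rw [pderiv_C, map_zero, mul_zero]
  | add p q hp hq =>
    rw [map_add, map_add, hp, hq, ← Finset.sum_add_distrib]
    refine Finset.sum_congr rfl (fun s _ => ?_)
    rw [map_add, map_add, mul_add]
  | mul_X p t hp =>
    rw [map_mul, Derivation.leibniz, hp, sb_X, smul_eq_mul, smul_eq_mul]
    have h1 : pderiv i (∑ j, C (Λ t j) * X j : MvPolynomial σ ℂ) = C (Λ t i) := by
      rw [map_sum, Finset.sum_eq_single i]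
      · rw [Derivation.leibniz, pderiv_C, pderiv_X_self, smul_zero, add_zero, smul_eq_mul, mul_one]
      · intro j _ hj
        rw [Derivation.leibniz, pderiv_C, pderiv_X_of_ne hj, smul_zero, smul_zero, add_zero]
      · intro h; exact absurd (Finset.mem_univ i) h
    rw [h1]
    have h2 : ∀ s, C (Λ s i) * sb Λ (pderiv s (p * X t)) =
        C (Λ s i) * (sb Λ p * sb Λ (pderiv s (X t))) +
          (∑ j, C (Λ t j) * X j) * (C (Λ s i) * sb Λ (pderiv s p)) := by
      intro s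
      rw [Derivation.leibniz, smul_eq_mul, smul_eq_mul, map_add, map_mul, map_mul, sb_X]
      ring
    simp_rw [h2]
    have h3 : ∑ s, C (Λ s i) * (sb Λ p * sb Λ (pderiv s (X t))) = C (Λ t i) * sb Λ p := by
      rw [Finset.sum_eq_single t]
      · rw [pderiv_X_self, map_one, mul_one]
      · intro s _ hs
        rw [pderiv_X_of_ne (Ne.symm hs), map_zero, mul_zero, mul_zero]
      · intro h; exact absurd (Finset.mem_univ t) h
    rw [Finset.sum_add_distrib, h3, ← Finset.mul_sum]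
    ring

/-- Gram matrix -/
noncomputable def gm (Λ : S → σ → ℂ) (s t : S) : ℂ := ∑ i, conj (Λ s i) * Λ t i

theorem gm_conj (Λ : S → σ → ℂ) (s t : S) : conj (gm Λ s t) = gm Λ t s := by
  unfold gm
  rw [map_sum]
  refine Finset.sum_congr rfl (fun i _ => ?_)
  rw [map_mul, Complex.conj_conj, mul_comm]

theorem ip_sb_X (Λ : S → σ → ℂ) (s : S) (p q : MvPolynomial S ℂ) :
    ip (sb Λ (X s * p)) (sb Λ q) = ∑ t, gm Λ s t * ip (sb Λ p) (sb Λ (pderiv t q)) := by
  rw [map_mul, sb_X, Finset.sum_mul, ip_sum_left]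
  have h : ∀ i, ip (C (Λ s i) * X i * sb Λ p) (sb Λ q) =
      ∑ t, conj (Λ s i) * Λ t i * ip (sb Λ p) (sb Λ (pderiv t q)) := by
    intro i
    rw [mul_assoc, ip_smul_left, ip_X, pderiv_sb, ip_sum_right, Finset.mul_sum]
    refine Finset.sum_congr rfl (fun t _ => ?_)
    rw [ip_smul_right]
    ring
  simp_rw [h]
  rw [Finset.sum_comm]
  refine Finset.sum_congr rfl (fun t _ => ?_)
  unfold gm
  rw [Finset.sum_mul]

theorem ip_sb_X' (Λ : S → σ → ℂ) (s : S) (p q : MvPolynomial S ℂ) :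
    ip (sb Λ p) (sb Λ (X s * q)) = ∑ t, gm Λ t s * ip (sb Λ (pderiv t p)) (sb Λ q) := by
  rw [← ip_symm, ip_sb_X, map_sum]
  refine Finset.sum_congr rfl (fun t _ => ?_)
  rw [map_mul, gm_conj, ip_symm]

theorem ip_C_left (a : ℂ) (u : MvPolynomial σ ℂ) : ip (C a) u = conj a * coeff 0 u := by
  have h := ip_monomial_left' (0 : σ →₀ ℕ) a u
  have hw : w (0 : σ →₀ ℕ) = 1 := by
    unfold w
    simp
  rw [hw, mul_one] at h
  exact h

theorem coeff_zero_sb (Λ : S → σ → ℂ) (p : MvPolynomial S ℂ) : coeff 0 (sb Λ p) = coeff 0 p := by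
  have h1 : coeff 0 (sb Λ p) = eval (0 : σ → ℂ) (sb Λ p) := by
    rw [eval_zero]; rfl
  have h2 : coeff 0 p = eval (0 : S → ℂ) p := by
    rw [eval_zero]; rfl
  rw [h1, h2, eval_sb]
  congr 1
  congr 1
  funext s
  simp

/-- the inner product depends on the Gram matrix only -/
theorem law (Λ : S → σ → ℂ) (Λ' : S → τ → ℂ) (h : gm Λ = gm Λ') (p : MvPolynomial S ℂ) :
    ∀ q : MvPolynomial S ℂ, ip (sb Λ p) (sb Λ q) = ip (sb Λ' p) (sb Λ' q) := by
  induction p using MvPolynomial.induction_on with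
  | C a =>
    intro q
    rw [sb_C, sb_C, ip_C_left, ip_C_left, coeff_zero_sb, coeff_zero_sb]
  | add p1 p2 h1 h2 =>
    intro q
    rw [map_add, map_add, ip_add_left, ip_add_left, h1, h2]
  | mul_X p s hp =>
    intro q
    rw [mul_comm, ip_sb_X, ip_sb_X, h]
    exact Finset.sum_congr rfl (fun t _ => by rw [hp])

end sub

section fub

variable {ι : Type*} [Fintype ι] [DecidableEq ι]
variable {κ : Type*} [Fintype κ] [DecidableEq κ]

theorem mono_sum (α β : ι ⊕ κ → ℕ) (y : ι → ℂ) (u : κ → ℂ) :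
    mono α β (Sum.elim y u) = mono (fun i => α (Sum.inl i)) (fun i => β (Sum.inl i)) y *
      mono (fun i => α (Sum.inr i)) (fun i => β (Sum.inr i)) u := by
  unfold mono
  rw [Fintype.prod_sum_type, Fintype.prod_sum_type]
  simp only [Sum.elim_inl, Sum.elim_inr]
  ring

theorem E_mono_sum (α β : ι ⊕ κ → ℕ) : E (mono α β) =
    E (mono (fun i => α (Sum.inl i)) (fun i => β (Sum.inl i))) *
      E (mono (fun i => α (Sum.inr i)) (fun i => β (Sum.inr i))) := by
  classical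
  rw [E_mono, E_mono, E_mono]
  by_cases h : α = β
  · subst h
    rw [if_pos rfl, if_pos rfl, if_pos rfl, Fintype.prod_sum_type]
  · rw [if_neg h]
    by_cases h1 : (fun i => α (Sum.inl i)) = (fun i => β (Sum.inl i))
    · by_cases h2 : (fun i => α (Sum.inr i)) = (fun i => β (Sum.inr i))
      · exfalso
        apply h
        funext i
        rcases i with i | i
        · exact congrFun h1 i
        · exact congrFun h2 i
      · rw [if_neg h2, mul_zero]
    · rw [if_neg h1, zero_mul]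

/-- Fubini for polynomials -/
theorem fub {F : (ι ⊕ κ → ℂ) → ℂ} (hF : F ∈ PolA (ι ⊕ κ)) :
    ((fun y : ι → ℂ => E (fun u : κ → ℂ => F (Sum.elim y u))) ∈ PolA ι) ∧
    (∀ y : ι → ℂ, (fun u : κ → ℂ => F (Sum.elim y u)) ∈ PolA κ) ∧
      E F = E (fun y : ι → ℂ => E (fun u : κ → ℂ => F (Sum.elim y u))) := by
  obtain ⟨p, rfl⟩ := hF
  simp only [RingHom.coe_coe, AlgHom.toRingHom_eq_coe]
  induction p using MvPolynomial.induction_on' with
  | monomial v a =>
    have e : ∀ (y : ι → ℂ) (u : κ → ℂ), (MvPolynomial.aeval (R := ℂ)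
      (Sum.elim (fun i (z : ι ⊕ κ → ℂ) => z i)
      (fun i (z : ι ⊕ κ → ℂ) => conj (z i))) (MvPolynomial.monomial v a)) (Sum.elim y u) =
      a * mono (fun i => v (Sum.inl (Sum.inl i))) (fun i => v (Sum.inr (Sum.inl i))) y *
        mono (fun i => v (Sum.inl (Sum.inr i))) (fun i => v (Sum.inr (Sum.inr i))) u := by
      intro y u
      rw [aeval_monomial_eq, mono_sum]
      ring
    have e2 : (MvPolynomial.aeval (R := ℂ)
      (Sum.elim (fun i (z : ι ⊕ κ → ℂ) => z i)
      (fun i (z : ι ⊕ κ → ℂ) => conj (z i))) (MvPolynomial.monomial v a)) = fun z =>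
        a * mono (fun i => v (Sum.inl i)) (fun i => v (Sum.inr i)) z := by
      funext z
      rw [aeval_monomial_eq]
    have e3 : (fun y : ι → ℂ => E (fun u : κ → ℂ => (MvPolynomial.aeval (R := ℂ)
      (Sum.elim (fun i (z : ι ⊕ κ → ℂ) => z i)
      (fun i (z : ι ⊕ κ → ℂ) => conj (z i))) (MvPolynomial.monomial v a)) (Sum.elim y u))) =
      fun y => (a * E (mono (fun i => v (Sum.inl (Sum.inr i)))
        (fun i => v (Sum.inr (Sum.inr i))) : (κ → ℂ) → ℂ)) *
        mono (fun i => v (Sum.inl (Sum.inl i))) (fun i => v (Sum.inr (Sum.inl i))) y := by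
      funext y
      simp_rw [e]
      rw [E_smul]
      ring
    refine ⟨?_, ?_, ?_⟩
    · rw [e3]
      exact mul_mem' (const_mem _) (mono_mem _ _)
    · intro y
      simp_rw [e]
      exact mul_mem' (const_mem _) (mono_mem _ _)
    · rw [e3, e2, E_smul, E_smul]
      rw [E_mono_sum]
      ring
  | add p q hp hq =>
    obtain ⟨p1, p2, p3⟩ := hp
    obtain ⟨q1, q2, q3⟩ := hq
    have e3 : (fun y : ι → ℂ => E (fun u : κ → ℂ => (MvPolynomial.aeval (R := ℂ)
      (Sum.elim (fun i (z : ι ⊕ κ → ℂ) => z i)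
      (fun i (z : ι ⊕ κ → ℂ) => conj (z i))) (p + q)) (Sum.elim y u))) =
      fun y => E (fun u : κ → ℂ => (MvPolynomial.aeval (R := ℂ)
      (Sum.elim (fun i (z : ι ⊕ κ → ℂ) => z i)
      (fun i (z : ι ⊕ κ → ℂ) => conj (z i))) p) (Sum.elim y u)) +
        E (fun u : κ → ℂ => (MvPolynomial.aeval (R := ℂ)
      (Sum.elim (fun i (z : ι ⊕ κ → ℂ) => z i)
      (fun i (z : ι ⊕ κ → ℂ) => conj (z i))) q) (Sum.elim y u)) := by
      funext y
      rw [← E_add (p2 y) (q2 y), map_add]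
      rfl
    refine ⟨?_, ?_, ?_⟩
    · rw [e3]
      exact add_mem' p1 q1
    · intro y
      rw [map_add]
      exact add_mem' (p2 y) (q2 y)
    · rw [e3, E_add p1 q1, ← p3, ← q3, map_add]
      have hp' : (MvPolynomial.aeval (R := ℂ)
        (Sum.elim (fun i (z : ι ⊕ κ → ℂ) => z i)
        (fun i (z : ι ⊕ κ → ℂ) => conj (z i))) p) ∈ PolA (ι ⊕ κ) := ⟨p, rfl⟩
      have hq' : (MvPolynomial.aeval (R := ℂ)
        (Sum.elim (fun i (z : ι ⊕ κ → ℂ) => z i)
        (fun i (z : ι ⊕ κ → ℂ) => conj (z i))) q) ∈ PolA (ι ⊕ κ) := ⟨q, rfl⟩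
      rw [← E_add hp' hq']
      rfl

theorem E_const_right {F : (ι → ℂ) → ℂ} (c : ℂ) : E (fun z => F z * c) = c * E F := by
  rw [← E_smul]
  congr 1
  funext z
  ring

theorem E_conj (F : (ι → ℂ) → ℂ) : E (fun z => conj (F z)) = conj (E F) := by
  unfold E
  rw [← integral_conj]
  congr 1
  funext z
  rw [map_mul, Complex.conj_ofReal]

/-- exchangeable copies: nonnegativity -/
theorem exch (c d : ℝ) {I : Type*} (s : Finset I) (f g : I → MvPolynomial ι ℂ) :
    0 ≤ (E (fun z : ι ⊕ (ι ⊕ ι) → ℂ =>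
      (∑ i ∈ s, conj (eval (fun j => c * z (Sum.inl j) + d * z (Sum.inr (Sum.inl j))) (f i)) *
        eval (fun j => c * z (Sum.inl j) + d * z (Sum.inr (Sum.inl j))) (g i)) *
      conj (∑ i ∈ s,
        conj (eval (fun j => c * z (Sum.inl j) + d * z (Sum.inr (Sum.inr j))) (f i)) *
        eval (fun j => c * z (Sum.inl j) + d * z (Sum.inr (Sum.inr j))) (g i)))).re := by
  set b : (ι → ℂ) → ℂ := fun x => ∑ i ∈ s, conj (eval x (f i)) * eval x (g i) with hb
  -- membership of compositions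
  have hlin : ∀ (Λ : ι → (ι ⊕ (ι ⊕ ι)) → ℂ),
      (fun z : ι ⊕ (ι ⊕ ι) → ℂ => b (fun j => ∑ i, Λ j i * z i)) ∈ PolA (ι ⊕ (ι ⊕ ι)) := by
    intro Λ
    rw [hb]
    refine sum_mem' _ (fun i _ => ?_)
    have h1 := conj_eval_mem (sb Λ (f i))
    have h2 := eval_mem (sb Λ (g i))
    simp_rw [eval_sb] at h1 h2
    exact mul_mem' h1 h2
  have hlin' : ∀ (Λ : ι → (ι ⊕ (ι ⊕ ι)) → ℂ),
      (fun z : ι ⊕ (ι ⊕ ι) → ℂ => conj (b (fun j => ∑ i, Λ j i * z i))) ∈
        PolA (ι ⊕ (ι ⊕ ι)) := by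
    intro Λ
    rw [hb]
    simp only [map_sum, map_mul, Complex.conj_conj]
    refine sum_mem' _ (fun i _ => ?_)
    have h1 := conj_eval_mem (sb Λ (g i))
    have h2 := eval_mem (sb Λ (f i))
    simp_rw [eval_sb] at h1 h2
    exact mul_mem' h2 h1
  set Λ0 : ι → (ι ⊕ (ι ⊕ ι)) → ℂ := fun j => Sum.elim (fun i => if i = j then (c : ℂ) else 0)
    (Sum.elim (fun i => if i = j then (d : ℂ) else 0) (fun _ => 0)) with hΛ0
  set Λ1 : ι → (ι ⊕ (ι ⊕ ι)) → ℂ := fun j => Sum.elim (fun i => if i = j then (c : ℂ) else 0)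
    (Sum.elim (fun _ => 0) (fun i => if i = j then (d : ℂ) else 0)) with hΛ1
  have e0 : ∀ z : ι ⊕ (ι ⊕ ι) → ℂ, (fun j => ∑ i, Λ0 j i * z i) =
      (fun j => c * z (Sum.inl j) + d * z (Sum.inr (Sum.inl j))) := by
    intro z
    funext j
    rw [hΛ0, Fintype.sum_sum_type, Fintype.sum_sum_type]
    simp
  have e1 : ∀ z : ι ⊕ (ι ⊕ ι) → ℂ, (fun j => ∑ i, Λ1 j i * z i) =
      (fun j => c * z (Sum.inl j) + d * z (Sum.inr (Sum.inr j))) := by
    intro z
    funext j
    rw [hΛ1, Fintype.sum_sum_type, Fintype.sum_sum_type]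
    simp
  have m0 := hlin Λ0
  have m1 := hlin' Λ1
  simp_rw [e0] at m0
  simp_rw [e1] at m1
  have mF := mul_mem' m0 m1
  obtain ⟨f1, f2, f3⟩ := fub mF
  have hgoal : (fun z : ι ⊕ (ι ⊕ ι) → ℂ =>
      (∑ i ∈ s, conj (eval (fun j => c * z (Sum.inl j) + d * z (Sum.inr (Sum.inl j))) (f i)) *
        eval (fun j => c * z (Sum.inl j) + d * z (Sum.inr (Sum.inl j))) (g i)) *
      conj (∑ i ∈ s,
        conj (eval (fun j => c * z (Sum.inl j) + d * z (Sum.inr (Sum.inr j))) (f i)) *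
        eval (fun j => c * z (Sum.inl j) + d * z (Sum.inr (Sum.inr j))) (g i))) =
      fun z => b (fun j => c * z (Sum.inl j) + d * z (Sum.inr (Sum.inl j))) *
        conj (b (fun j => c * z (Sum.inl j) + d * z (Sum.inr (Sum.inr j)))) := rfl
  rw [hgoal, f3]
  -- inner expectation
  set bh : (ι → ℂ) → ℂ := fun y => E (fun u : ι → ℂ => b (fun j => c * y j + d * u j)) with hbh
  have e4 : ∀ y : ι → ℂ, E (fun u : ι ⊕ ι → ℂ =>
      b (fun j => c * (Sum.elim y u : ι ⊕ (ι ⊕ ι) → ℂ) (Sum.inl j) +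
        d * (Sum.elim y u : ι ⊕ (ι ⊕ ι) → ℂ) (Sum.inr (Sum.inl j))) *
      conj (b (fun j => c * (Sum.elim y u : ι ⊕ (ι ⊕ ι) → ℂ) (Sum.inl j) +
        d * (Sum.elim y u : ι ⊕ (ι ⊕ ι) → ℂ) (Sum.inr (Sum.inr j))))) =
      bh y * conj (bh y) := by
    intro y
    obtain ⟨g1, g2, g3⟩ := fub (f2 y)
    rw [g3]
    simp only [Sum.elim_inl, Sum.elim_inr]
    have e5 : ∀ u : ι → ℂ, E (fun v : ι → ℂ => b (fun j => c * y j + d * u j) *
        conj (b (fun j => c * y j + d * v j))) = conj (bh y) * b (fun j => c * y j + d * u j) := by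
      intro u
      rw [E_smul, E_conj, hbh, mul_comm]
    simp_rw [e5]
    rw [E_smul, mul_comm]
  simp_rw [e4]
  have e6 : E (fun y => bh y * conj (bh y)) =
      ((∫ y : ι → ℂ, Complex.normSq (bh y) * gr y : ℝ) : ℂ) := by
    unfold E
    rw [← integral_complex_ofReal]
    congr 1
    funext y
    show bh y * conj (bh y) * ((gr y : ℝ) : ℂ) = _
    rw [Complex.mul_conj]
    push_cast
    ring
  rw [e6, Complex.ofReal_re]
  exact integral_nonneg (fun z => mul_nonneg (Complex.normSq_nonneg _) (gr_nonneg z))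

end fub

end Pool.Agent.helper61.TCM
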