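import Pool.Agent.helper61.TCM.A

set_option linter.all false
set_option autoImplicit false

/-!
# Two copies: the leg inequality (MP_2dd521_co)
-/

namespace Pool.Agent.helper61.TCM

open MvPolynomial Finset MeasureTheory
open scoped ComplexConjugate
open Pool.Agent.helper80.LSZ
open Pool.Agent.helper16.Fock

variable {ι : Type*} [Fintype ι] [DecidableEq ι]

/-- linear form -/
noncomputable def lin (l : ι → ℂ) : MvPolynomial ι ℂ := ∑ i, C (l i) * X i

/-- derivative along the linear form -/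
noncomputable def dl (l : ι → ℂ) (f : MvPolynomial ι ℂ) : MvPolynomial ι ℂ :=
  ∑ i, C (conj (l i)) * pderiv i f

/-- squared length -/
noncomputable def nl (l : ι → ℂ) : ℝ := ∑ i, Complex.normSq (l i)

theorem nl_nonneg (l : ι → ℂ) : 0 ≤ nl l := Finset.sum_nonneg (fun i _ => Complex.normSq_nonneg _)

theorem nl_zero (l : ι → ℂ) (h : nl l = 0) : l = 0 := by
  unfold nl at h
  rw [Finset.sum_eq_zero_iff_of_nonneg (fun i _ => Complex.normSq_nonneg _)] at h
  funext i
  exact Complex.normSq_eq_zero.1 (h i (Finset.mem_univ i))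

theorem dl_lin (l : ι → ℂ) (f : MvPolynomial ι ℂ) :
    dl l (lin l * f) = C ((nl l : ℝ) : ℂ) * f + lin l * dl l f := by
  unfold dl
  have h1 : ∀ i, pderiv i (lin l) = C (l i) := by
    intro i
    unfold lin
    rw [map_sum, Finset.sum_eq_single i]
    · rw [Derivation.leibniz, pderiv_C, pderiv_X_self, smul_zero, add_zero, smul_eq_mul, mul_one]
    · intro j _ hj
      rw [Derivation.leibniz, pderiv_C, pderiv_X_of_ne hj, smul_zero, smul_zero, add_zero]
    · intro h; exact absurd (Finset.mem_univ i) h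
  have h2 : ∀ i, C (conj (l i)) * pderiv i (lin l * f) =
      C (conj (l i) * l i) * f + lin l * (C (conj (l i)) * pderiv i f) := by
    intro i
    rw [Derivation.leibniz, smul_eq_mul, smul_eq_mul, h1, C_mul]
    ring
  simp_rw [h2]
  rw [Finset.sum_add_distrib, ← Finset.sum_mul, ← Finset.mul_sum, ← map_sum]
  congr 3
  unfold nl
  push_cast
  refine Finset.sum_congr rfl (fun i _ => ?_)
  rw [mul_comm, Complex.mul_conj]

theorem dl_C_mul (l : ι → ℂ) (c : ℂ) (f : MvPolynomial ι ℂ) : dl l (C c * f) = C c * dl l f := by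
  unfold dl
  rw [Finset.mul_sum]
  refine Finset.sum_congr rfl (fun i _ => ?_)
  rw [pderiv_C_mul]
  ring

theorem dl_add (l : ι → ℂ) (f g : MvPolynomial ι ℂ) : dl l (f + g) = dl l f + dl l g := by
  unfold dl
  rw [← Finset.sum_add_distrib]
  refine Finset.sum_congr rfl (fun i _ => ?_)
  rw [map_add, mul_add]

/-- placing a polynomial in one copy -/
noncomputable def cp {K : Type*} (a : K) : MvPolynomial ι ℂ →ₐ[ℂ] MvPolynomial (K × ι) ℂ :=
  rename (fun i => (a, i))

theorem cp_C {K : Type*} (a : K) (c : ℂ) : cp (ι := ι) a (C c) = C c := by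
  unfold cp
  rw [rename_C]

theorem cp_Cm {K : Type*} (a : K) (c : ℂ) (f : MvPolynomial ι ℂ) :
    cp a (C c * f) = C c * cp a f := by
  rw [map_mul, cp_C]

theorem sb_Cm {S : Type*} [Fintype S] [DecidableEq S] {σ : Type*} [Fintype σ] [DecidableEq σ]
    (Λ : S → σ → ℂ) (c : ℂ) (f : MvPolynomial S ℂ) : sb Λ (C c * f) = C c * sb Λ f := by
  rw [map_mul, sb_C]

theorem cp_X {K : Type*} (a : K) (i : ι) : cp a (X i) = X (a, i) := by
  unfold cp
  rw [rename_X]

theorem pderiv_cp {K : Type*} [DecidableEq K] (a b : K) (i : ι) (f : MvPolynomial ι ℂ) :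
    pderiv (b, i) (cp a f) = if b = a then cp a (pderiv i f) else 0 := by
  split_ifs with h
  · subst h
    unfold cp
    exact (pderiv_rename (fun x y h => by simpa using h) i f)
  · unfold cp
    induction f using MvPolynomial.induction_on with
    | C c => rw [rename_C, pderiv_C]
    | add p q hp hq => rw [map_add, map_add, hp, hq, add_zero]
    | mul_X p j hp =>
      rw [map_mul, Derivation.leibniz, hp, rename_X, pderiv_X_of_ne]
      · simp
      · intro h'
        exact h (congrArg Prod.fst h').symm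

section two

variable {σ : Type*} [Fintype σ] [DecidableEq σ]

/-- the Gram matrix of two copies is `[[p, q], [q, p]]` -/
def Two (Λ : Fin 2 × ι → σ → ℂ) (p q : ℝ) : Prop :=
  ∀ a b i j, gm Λ (a, i) (b, j) = if i = j then (if a = b then (p : ℂ) else (q : ℂ)) else 0

/-- the bracket -/
noncomputable def br (Λ : Fin 2 × ι → σ → ℂ) (f g h k : MvPolynomial ι ℂ) : ℂ :=
  ip (sb Λ (cp 0 f * cp 1 g)) (sb Λ (cp 0 h * cp 1 k))

variable (Λ : Fin 2 × ι → σ → ℂ)

theorem br_conj (f g h k : MvPolynomial ι ℂ) : conj (br Λ f g h k) = br Λ h k f g := ip_symm _ _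

theorem br_add1 (f f' g h k : MvPolynomial ι ℂ) :
    br Λ (f + f') g h k = br Λ f g h k + br Λ f' g h k := by
  unfold br
  rw [map_add, add_mul, map_add, ip_add_left]

theorem br_add2 (f g g' h k : MvPolynomial ι ℂ) :
    br Λ f (g + g') h k = br Λ f g h k + br Λ f g' h k := by
  unfold br
  rw [map_add, mul_add, map_add, ip_add_left]

theorem br_add3 (f g h h' k : MvPolynomial ι ℂ) :
    br Λ f g (h + h') k = br Λ f g h k + br Λ f g h' k := by
  unfold br
  rw [map_add, add_mul, map_add, ip_add_right]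

theorem br_add4 (f g h k k' : MvPolynomial ι ℂ) :
    br Λ f g h (k + k') = br Λ f g h k + br Λ f g h k' := by
  unfold br
  rw [map_add, mul_add, map_add, ip_add_right]

theorem br_c1 (c : ℂ) (f g h k : MvPolynomial ι ℂ) :
    br Λ (C c * f) g h k = conj c * br Λ f g h k := by
  unfold br
  rw [cp_Cm, mul_assoc, sb_Cm, ip_smul_left]

theorem br_c2 (c : ℂ) (f g h k : MvPolynomial ι ℂ) :
    br Λ f (C c * g) h k = conj c * br Λ f g h k := by
  unfold br
  rw [cp_Cm, mul_left_comm, sb_Cm, ip_smul_left]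

theorem br_c3 (c : ℂ) (f g h k : MvPolynomial ι ℂ) :
    br Λ f g (C c * h) k = c * br Λ f g h k := by
  unfold br
  rw [cp_Cm, mul_assoc, sb_Cm, ip_smul_right]

theorem br_c4 (c : ℂ) (f g h k : MvPolynomial ι ℂ) :
    br Λ f g h (C c * k) = c * br Λ f g h k := by
  unfold br
  rw [cp_Cm, mul_left_comm, sb_Cm, ip_smul_right]

theorem br_nonneg (f g : MvPolynomial ι ℂ) : 0 ≤ (br Λ f g f g).re := nr_nonneg _

variable {Λ} {p q : ℝ}

theorem pd0 (i : ι) (h k : MvPolynomial ι ℂ) :
    pderiv ((0 : Fin 2), i) (cp 0 h * cp 1 k) = cp 0 (pderiv i h) * cp 1 k := by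
  rw [Derivation.leibniz, pderiv_cp, pderiv_cp, if_neg (by decide), if_pos rfl, smul_zero,
    zero_add, smul_eq_mul, mul_comm]

theorem pd1 (i : ι) (h k : MvPolynomial ι ℂ) :
    pderiv ((1 : Fin 2), i) (cp 0 h * cp 1 k) = cp 0 h * cp 1 (pderiv i k) := by
  rw [Derivation.leibniz, pderiv_cp, pderiv_cp, if_pos rfl, if_neg (by decide), smul_zero,
    add_zero, smul_eq_mul]

theorem sum_two (F : Fin 2 × ι → ℂ) : ∑ s, F s = ∑ i, (F (0, i) + F (1, i)) := by
  rw [Fintype.sum_prod_type, Fin.sum_univ_two, Finset.sum_add_distrib]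

/-- moving a linear form, first copy, left -/
theorem br_l1 (hΛ : Two Λ p q) (l : ι → ℂ) (f g h k : MvPolynomial ι ℂ) :
    br Λ (lin l * f) g h k = p * br Λ f g (dl l h) k + q * br Λ f g h (dl l k) := by
  have e1 : sb Λ (cp 0 (lin l * f) * cp 1 g) =
      ∑ i, C (l i) * sb Λ (X (0, i) * (cp 0 f * cp 1 g)) := by
    unfold lin
    rw [Finset.sum_mul, map_sum, Finset.sum_mul, map_sum]
    refine Finset.sum_congr rfl (fun i _ => ?_)
    rw [mul_assoc, cp_Cm, map_mul (cp 0), cp_X, mul_assoc, mul_assoc, sb_Cm]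
  have e2 : ∀ i, ip (C (l i) * sb Λ (X (0, i) * (cp 0 f * cp 1 g))) (sb Λ (cp 0 h * cp 1 k)) =
      p * (conj (l i) * br Λ f g (pderiv i h) k) + q * (conj (l i) * br Λ f g h (pderiv i k)) := by
    intro i
    rw [ip_smul_left, ip_sb_X, sum_two, Finset.sum_eq_single i]
    · rw [hΛ, hΛ, if_pos rfl, if_pos rfl, if_pos rfl, if_neg (by decide), pd0, pd1]
      unfold br
      ring
    · intro j _ hj
      rw [hΛ, hΛ, if_neg (Ne.symm hj), if_neg (Ne.symm hj)]
      ring
    · intro h; exact absurd (Finset.mem_univ i) h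
  have e3 : br Λ f g (dl l h) k = ∑ i, conj (l i) * br Λ f g (pderiv i h) k := by
    unfold dl br
    rw [map_sum, Finset.sum_mul, map_sum, ip_sum_right]
    refine Finset.sum_congr rfl (fun i _ => ?_)
    rw [cp_Cm, mul_assoc, sb_Cm, ip_smul_right]
  have e4 : br Λ f g h (dl l k) = ∑ i, conj (l i) * br Λ f g h (pderiv i k) := by
    unfold dl br
    rw [map_sum, Finset.mul_sum, map_sum, ip_sum_right]
    refine Finset.sum_congr rfl (fun i _ => ?_)
    rw [cp_Cm, mul_left_comm, sb_Cm, ip_smul_right]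
  rw [e3, e4, Finset.mul_sum, Finset.mul_sum, ← Finset.sum_add_distrib]
  unfold br
  rw [e1, ip_sum_left]
  exact Finset.sum_congr rfl (fun i _ => e2 i)

/-- exchange of the copies -/
theorem br_swap (hΛ : Two Λ p q) (f g h k : MvPolynomial ι ℂ) :
    br Λ f g h k = br Λ g f k h := by
  set Λ' : Fin 2 × ι → σ → ℂ := fun s => Λ (if s.1 = 0 then 1 else 0, s.2) with hΛ'
  have hg : gm Λ = gm Λ' := by
    funext s t
    obtain ⟨a, i⟩ := s
    obtain ⟨b, j⟩ := t
    have h1 : gm Λ' (a, i) (b, j) = gm Λ (if a = 0 then 1 else 0, i) (if b = 0 then 1 else 0, j) :=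
      rfl
    rw [h1, hΛ, hΛ]
    fin_cases a <;> fin_cases b <;> simp
  have hs : ∀ u v : MvPolynomial ι ℂ, sb Λ' (cp 0 u * cp 1 v) = sb Λ (cp 0 v * cp 1 u) := by
    intro u v
    rw [map_mul, map_mul, mul_comm]
    congr 1
    · induction v using MvPolynomial.induction_on with
      | C c => rw [cp_C, cp_C, sb_C, sb_C]
      | add p q hp hq => rw [map_add, map_add, map_add, map_add, hp, hq]
      | mul_X p j hp =>
        rw [map_mul, map_mul, map_mul, map_mul, hp, cp_X, cp_X, sb_X, sb_X]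
        rfl
    · induction u using MvPolynomial.induction_on with
      | C c => rw [cp_C, cp_C, sb_C, sb_C]
      | add p q hp hq => rw [map_add, map_add, map_add, map_add, hp, hq]
      | mul_X p j hp =>
        rw [map_mul, map_mul, map_mul, map_mul, hp, cp_X, cp_X, sb_X, sb_X]
        rfl
  unfold br
  rw [law Λ Λ' hg, hs, hs]

theorem br_l2 (hΛ : Two Λ p q) (l : ι → ℂ) (f g h k : MvPolynomial ι ℂ) :
    br Λ f (lin l * g) h k = p * br Λ f g h (dl l k) + q * br Λ f g (dl l h) k := by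
  rw [br_swap hΛ, br_l1 hΛ, br_swap hΛ g f (dl l k) h, br_swap hΛ g f k (dl l h)]

theorem br_l3 (hΛ : Two Λ p q) (l : ι → ℂ) (f g h k : MvPolynomial ι ℂ) :
    br Λ f g (lin l * h) k = p * br Λ (dl l f) g h k + q * br Λ f (dl l g) h k := by
  rw [← br_conj, br_l1 hΛ, map_add, map_mul, map_mul, br_conj, br_conj, Complex.conj_ofReal,
    Complex.conj_ofReal]

theorem br_l4 (hΛ : Two Λ p q) (l : ι → ℂ) (f g h k : MvPolynomial ι ℂ) :
    br Λ f g h (lin l * k) = p * br Λ f (dl l g) h k + q * br Λ (dl l f) g h k := by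
  rw [← br_conj, br_l2 hΛ, map_add, map_mul, map_mul, br_conj, br_conj, Complex.conj_ofReal,
    Complex.conj_ofReal]

theorem delta (u v : ℝ) (i j : ι) : ∑ x : ι, conj (if x = i then (u : ℂ) else 0) *
    (if x = j then (v : ℂ) else 0) = if i = j then (u : ℂ) * v else 0 := by
  rw [Finset.sum_eq_single i]
  · rw [if_pos rfl, Complex.conj_ofReal]
    split_ifs <;> simp
  · intro x _ hx
    rw [if_neg hx, map_zero, zero_mul]
  · intro h; exact absurd (Finset.mem_univ i) h

/-- exchangeable copies -/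
theorem tpos (hΛ : Two Λ p q) (hq : 0 ≤ q) (hpq : q ≤ p) {I : Type*} (s : Finset I)
    (f g : I → MvPolynomial ι ℂ) :
    0 ≤ (∑ i ∈ s, ∑ j ∈ s, br Λ (f i) (g j) (g i) (f j)).re := by
  set c : ℝ := Real.sqrt q with hc
  set d : ℝ := Real.sqrt (p - q) with hd
  have hcc : c * c = q := Real.mul_self_sqrt hq
  have hdd : d * d = p - q := Real.mul_self_sqrt (by linarith)
  set Λ0 : Fin 2 × ι → (ι ⊕ (ι ⊕ ι)) → ℂ := fun s =>
    Sum.elim (fun i => if i = s.2 then (c : ℂ) else 0)
    (Sum.elim (fun i => if s.1 = 0 then (if i = s.2 then (d : ℂ) else 0) else 0)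
      (fun i => if s.1 = 1 then (if i = s.2 then (d : ℂ) else 0) else 0)) with hΛ0
  have hg : gm Λ = gm Λ0 := by
    funext s t
    obtain ⟨a, i⟩ := s
    obtain ⟨b, j⟩ := t
    rw [hΛ]
    unfold gm
    rw [Fintype.sum_sum_type, Fintype.sum_sum_type, hΛ0]
    simp only [Sum.elim_inl, Sum.elim_inr]
    have hcc' : (c : ℂ) * c = q := by exact_mod_cast hcc
    have hdd' : (d : ℂ) * d = p - q := by exact_mod_cast hdd
    fin_cases a <;> fin_cases b <;>
      simp only [Fin.zero_eta, Fin.mk_one, if_true, zero_ne_one, one_ne_zero, if_false, map_zero,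
        zero_mul, mul_zero, Finset.sum_const_zero, add_zero, delta, hcc', hdd'] <;>
      split_ifs <;> ring
  have h := exch (ι := ι) c d s f g
  convert h using 2
  have e : ∀ i j, br Λ (f i) (g j) (g i) (f j) =
      E (fun z : ι ⊕ (ι ⊕ ι) → ℂ =>
        conj (eval (fun j => c * z (Sum.inl j) + d * z (Sum.inr (Sum.inl j))) (f i)) *
        conj (eval (fun j => c * z (Sum.inl j) + d * z (Sum.inr (Sum.inr j))) (g j)) *
        (eval (fun j => c * z (Sum.inl j) + d * z (Sum.inr (Sum.inl j))) (g i) *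
        eval (fun j => c * z (Sum.inl j) + d * z (Sum.inr (Sum.inr j))) (f j))) := by
    intro i j
    unfold br
    rw [law Λ Λ0 hg]
    unfold ip
    congr 1
    funext z
    have e0 : ∀ u : MvPolynomial ι ℂ, eval (fun s => ∑ i, Λ0 s i * z i) (cp 0 u) =
        eval (fun j => c * z (Sum.inl j) + d * z (Sum.inr (Sum.inl j))) u := by
      intro u
      unfold cp
      rw [eval_rename]
      congr 2
      funext j
      rw [Function.comp_apply, Fintype.sum_sum_type, Fintype.sum_sum_type, hΛ0]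
      simp
    have e1 : ∀ u : MvPolynomial ι ℂ, eval (fun s => ∑ i, Λ0 s i * z i) (cp 1 u) =
        eval (fun j => c * z (Sum.inl j) + d * z (Sum.inr (Sum.inr j))) u := by
      intro u
      unfold cp
      rw [eval_rename]
      congr 2
      funext j
      rw [Function.comp_apply, Fintype.sum_sum_type, Fintype.sum_sum_type, hΛ0]
      simp
    rw [eval_sb, eval_sb, map_mul, map_mul, map_mul, e0, e1, e0, e1]
  simp_rw [e]
  have hm : ∀ i j, (fun z : ι ⊕ (ι ⊕ ι) → ℂ =>
        conj (eval (fun j => c * z (Sum.inl j) + d * z (Sum.inr (Sum.inl j))) (f i)) *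
        conj (eval (fun j => c * z (Sum.inl j) + d * z (Sum.inr (Sum.inr j))) (g j)) *
        (eval (fun j => c * z (Sum.inl j) + d * z (Sum.inr (Sum.inl j))) (g i) *
        eval (fun j => c * z (Sum.inl j) + d * z (Sum.inr (Sum.inr j))) (f j))) ∈
      PolA (ι ⊕ (ι ⊕ ι)) := by
    intro i j
    have e0 : ∀ z : ι ⊕ (ι ⊕ ι) → ℂ, (fun j => c * z (Sum.inl j) + d * z (Sum.inr (Sum.inl j))) =
        fun j => ∑ i, Λ0 (0, j) i * z i := by
      intro z
      funext j
      rw [Fintype.sum_sum_type, Fintype.sum_sum_type, hΛ0]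
      simp
    have e1 : ∀ z : ι ⊕ (ι ⊕ ι) → ℂ, (fun j => c * z (Sum.inl j) + d * z (Sum.inr (Sum.inr j))) =
        fun j => ∑ i, Λ0 (1, j) i * z i := by
      intro z
      funext j
      rw [Fintype.sum_sum_type, Fintype.sum_sum_type, hΛ0]
      simp
    simp_rw [e0, e1]
    simp_rw [← eval_sb]
    exact mul_mem' (mul_mem' (conj_eval_mem _) (conj_eval_mem _))
      (mul_mem' (eval_mem _) (eval_mem _))
  have h2 : ∀ i, ∑ j ∈ s, E (fun z : ι ⊕ (ι ⊕ ι) → ℂ =>
        conj (eval (fun j => c * z (Sum.inl j) + d * z (Sum.inr (Sum.inl j))) (f i)) *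
        conj (eval (fun j => c * z (Sum.inl j) + d * z (Sum.inr (Sum.inr j))) (g j)) *
        (eval (fun j => c * z (Sum.inl j) + d * z (Sum.inr (Sum.inl j))) (g i) *
        eval (fun j => c * z (Sum.inl j) + d * z (Sum.inr (Sum.inr j))) (f j))) =
      E (fun z => ∑ j ∈ s,
        conj (eval (fun j => c * z (Sum.inl j) + d * z (Sum.inr (Sum.inl j))) (f i)) *
        conj (eval (fun j => c * z (Sum.inl j) + d * z (Sum.inr (Sum.inr j))) (g j)) *
        (eval (fun j => c * z (Sum.inl j) + d * z (Sum.inr (Sum.inl j))) (g i) *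
        eval (fun j => c * z (Sum.inl j) + d * z (Sum.inr (Sum.inr j))) (f j))) := by
    intro i
    rw [E_sum _ (fun j _ => hm i j)]
  simp_rw [h2]
  rw [← E_sum _ (fun i _ => sum_mem' _ (fun j _ => hm i j))]
  congr 1
  funext z
  rw [map_sum, Finset.sum_mul_sum]
  refine Finset.sum_congr rfl (fun i _ => Finset.sum_congr rfl (fun j _ => ?_))
  simp only [map_mul, Complex.conj_conj]
  ring

end two

end Pool.Agent.helper61.TCM
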