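import Pool.Agent.helper61.TCM.H

set_option linter.all false
set_option autoImplicit false

/-!
# Paths of copies: the derivative of the norm along `y + s u_a` (MP_2dd521_co)
-/

namespace Pool.Agent.helper61.TCM

open MvPolynomial Finset MeasureTheory
open scoped ComplexConjugate
open Pool.Agent.helper80.LSZ
open Pool.Agent.helper16.Fock

section scale

variable {ι : Type*} [Fintype ι] [DecidableEq ι]
variable {J : Type*} [Fintype J] [DecidableEq J]

/-- the scaling matrix -/
noncomputable def dg (s : ℝ) : Option J × ι → Option J × ι → ℂ := fun a b =>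
  if a = b then (a.1.elim 1 (fun _ => (s : ℂ))) else 0

theorem sb_dg_X (s : ℝ) (a : Option J × ι) :
    sb (dg (J := J) s) (X a) = C (a.1.elim 1 (fun _ => (s : ℂ))) * X a := by
  rw [sb_X, Finset.sum_eq_single a]
  · unfold dg
    rw [if_pos rfl]
  · intro b _ hb
    unfold dg
    rw [if_neg (Ne.symm hb), C_0, zero_mul]
  · intro h; exact absurd (Finset.mem_univ a) h

/-- the degree in the scaled variables -/
def wd (u : Option J × ι →₀ ℕ) : ℕ := ∑ j : J, ∑ i : ι, u (some j, i)

theorem sb_dg_monomial (s : ℝ) (u : Option J × ι →₀ ℕ) (a : ℂ) :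
    sb (dg (J := J) s) (monomial u a) = monomial u (a * (s : ℂ) ^ wd u) := by
  rw [monomial_eq, map_mul, sb_C, Finsupp.prod_fintype _ _ (fun i => pow_zero _), map_prod]
  simp_rw [map_pow, sb_dg_X, mul_pow]
  rw [Finset.prod_mul_distrib]
  have h1 : ∏ x : Option J × ι,
      (C (x.1.elim 1 (fun _ => (s : ℂ))) : MvPolynomial (Option J × ι) ℂ) ^ u x =
      C ((s : ℂ) ^ wd u) := by
    rw [Fintype.prod_prod_type, Fintype.prod_option]
    simp only [Option.elim_none, Option.elim_some, C_1, one_pow, Finset.prod_const_one, one_mul]
    unfold wd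
    rw [← Finset.prod_pow_eq_pow_sum, map_prod]
    refine Finset.prod_congr rfl (fun j _ => ?_)
    rw [← Finset.prod_pow_eq_pow_sum, map_prod]
    exact Finset.prod_congr rfl (fun i _ => by rw [C_pow])
  rw [h1, monomial_eq, Finsupp.prod_fintype _ _ (fun i => pow_zero _), C_mul]
  ring

theorem deriv_ip (s : ℝ) (hs : s ≠ 0) (p : MvPolynomial (Option J × ι) ℂ) :
    ∀ q : MvPolynomial (Option J × ι) ℂ,
    HasDerivAt (fun s : ℝ => ip (sb (dg s) p) (sb (dg s) q))
      ((2 / s) * ∑ j : J, ∑ i : ι, ip (pderiv (some j, i) (sb (dg s) p))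
        (pderiv (some j, i) (sb (dg s) q))) s := by
  classical
  induction p using MvPolynomial.induction_on' with
  | add p1 p2 h1 h2 =>
    intro q
    have h := (h1 q).add (h2 q)
    have e1 : (fun s : ℝ => ip (sb (dg s) (p1 + p2)) (sb (dg s) q)) =
        (fun s : ℝ => ip (sb (dg s) p1) (sb (dg s) q)) +
          fun s : ℝ => ip (sb (dg s) p2) (sb (dg s) q) := by
      funext s
      rw [map_add, ip_add_left]
      rfl
    rw [e1]
    refine h.congr_deriv ?_
    rw [← mul_add, ← Finset.sum_add_distrib]
    congr 1
    refine Finset.sum_congr rfl (fun j _ => ?_)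
    rw [← Finset.sum_add_distrib]
    refine Finset.sum_congr rfl (fun i _ => ?_)
    rw [map_add, map_add, ip_add_left]
  | monomial u a =>
    intro q
    induction q using MvPolynomial.induction_on' with
    | add q1 q2 h1 h2 =>
      have h := h1.add h2
      have e1 : (fun s : ℝ => ip (sb (dg s) (monomial u a)) (sb (dg s) (q1 + q2))) =
          (fun s : ℝ => ip (sb (dg s) (monomial u a)) (sb (dg s) q1)) +
            fun s : ℝ => ip (sb (dg s) (monomial u a)) (sb (dg s) q2) := by
        funext s
        rw [map_add, ip_add_right]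
        rfl
      rw [e1]
      refine h.congr_deriv ?_
      rw [← mul_add, ← Finset.sum_add_distrib]
      congr 1
      refine Finset.sum_congr rfl (fun j _ => ?_)
      rw [← Finset.sum_add_distrib]
      refine Finset.sum_congr rfl (fun i _ => ?_)
      rw [map_add (sb (dg s)), map_add (pderiv _), ip_add_right]
    | monomial v b =>
      have e1 : (fun s : ℝ => ip (sb (dg s) (monomial u a)) (sb (dg s) (monomial v b))) =
          fun s : ℝ => (if u = v then conj a * b * w u else 0) * ((s ^ (2 * wd u) : ℝ) : ℂ) := by
        funext s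
        rw [sb_dg_monomial, sb_dg_monomial, ip_monomial]
        split_ifs with h
        · subst h
          rw [map_mul, map_pow, Complex.conj_ofReal]
          push_cast
          ring
        · rw [zero_mul]
      rw [e1]
      have h2 : HasDerivAt (fun s : ℝ => ((s ^ (2 * wd u) : ℝ) : ℂ))
          ((((2 * wd u : ℕ) : ℝ) * s ^ (2 * wd u - 1) : ℝ) : ℂ) s :=
        (hasDerivAt_pow (2 * wd u) s).ofReal_comp
      refine (h2.const_mul (if u = v then conj a * b * w u else 0)).congr_deriv ?_
      have e3 : ∀ (j : J) (i : ι), ip (pderiv (some j, i) (sb (dg s) (monomial u a)))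
          (pderiv (some j, i) (sb (dg s) (monomial v b))) =
          (u (some j, i) : ℂ) * ((if u = v then conj a * b * w u else 0) *
            ((s ^ (2 * wd u) : ℝ) : ℂ)) := by
        intro j i
        rw [← ip_X, sb_dg_monomial, X_mul_pderiv_monomial, sb_dg_monomial]
        have : (u (some j, i)) • (monomial u (a * (s : ℂ) ^ wd u)) =
            C ((u (some j, i) : ℂ)) * (monomial u (a * (s : ℂ) ^ wd u)) := by
          rw [nsmul_eq_mul]
          congr 1
        rw [this, ip_smul_left, ip_monomial]
        simp only [map_natCast]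
        congr 1
        split_ifs with h
        · subst h
          rw [map_mul, map_pow, Complex.conj_ofReal]
          push_cast
          ring
        · rw [zero_mul]
      simp_rw [e3, ← Finset.sum_mul]
      have e4 : (∑ j : J, ∑ i : ι, (u (some j, i) : ℂ)) = ((wd u : ℕ) : ℂ) := by
        unfold wd
        push_cast
        rfl
      rw [e4]
      rcases Nat.eq_zero_or_pos (wd u) with h0 | h0
      · rw [h0]
        simp
      · have e5 : s ^ (2 * wd u) = s * s ^ (2 * wd u - 1) := by
          rw [← pow_succ']
          congr 1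
          omega
        rw [e5]
        have hs' : (s : ℂ) ≠ 0 := by exact_mod_cast hs
        push_cast
        field_simp

end scale

end Pool.Agent.helper61.TCM
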