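import Pool.Agent.helper61.TCM.C

set_option linter.all false
set_option autoImplicit false

/-!
# Paths of copies: reduction of the monotonicity to the leg inequality (MP_2dd521_co)
-/

namespace Pool.Agent.helper61.TCM

open MvPolynomial Finset MeasureTheory
open scoped ComplexConjugate
open Pool.Agent.helper80.LSZ
open Pool.Agent.helper16.Fock

section path

variable {ι : Type*} [Fintype ι] [DecidableEq ι]
variable {J : Type*} [Fintype J] [DecidableEq J]
variable {K : Type*} [Fintype K] [DecidableEq K]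

/-- the copies `y + s u_a` -/
noncomputable def LT (T : K → J → ℝ) (s : ℝ) : K × ι → Option J × ι → ℂ := fun a x =>
  if a.2 = x.2 then x.1.elim 1 (fun j => ((s * T a.1 j : ℝ) : ℂ)) else 0

theorem LT_comp (T : K → J → ℝ) (s : ℝ) (p : MvPolynomial (K × ι) ℂ) :
    sb (LT T s) p = sb (dg s) (sb (LT T 1) p) := by
  induction p using MvPolynomial.induction_on with
  | C a => rw [sb_C, sb_C, sb_C]
  | add p q hp hq => rw [map_add, map_add, map_add, hp, hq]
  | mul_X p a hp =>
    rw [map_mul, map_mul, map_mul, hp]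
    congr 1
    rw [sb_X, sb_X, map_sum]
    refine Finset.sum_congr rfl (fun x _ => ?_)
    rw [sb_Cm, sb_dg_X, ← mul_assoc, ← C_mul]
    congr 2
    unfold LT
    obtain ⟨o, i⟩ := x
    by_cases h : a.2 = i
    · rw [if_pos h, if_pos h]
      rcases o with _ | j
      · simp
      · simp only [Option.elim_some]
        push_cast
        ring
    · rw [if_neg h, if_neg h]
      simp

theorem pd_none (T : K → J → ℝ) (s : ℝ) (i : ι) (p : MvPolynomial (K × ι) ℂ) :
    pderiv (none, i) (sb (LT T s) p) = ∑ a, sb (LT T s) (pderiv (a, i) p) := by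
  rw [pderiv_sb, Fintype.sum_prod_type]
  refine Finset.sum_congr rfl (fun a _ => ?_)
  rw [Finset.sum_eq_single i]
  · unfold LT
    rw [if_pos rfl]
    simp
  · intro j _ hj
    unfold LT
    rw [if_neg hj, C_0, zero_mul]
  · intro h; exact absurd (Finset.mem_univ i) h

/-- the derivative of the norm along the path, homogeneous case -/
theorem deriv_nr (T : K → J → ℝ) (s : ℝ) (hs : s ≠ 0) (p : MvPolynomial (K × ι) ℂ) (N : ℕ)
    (hp : p.IsHomogeneous N) :
    HasDerivAt (fun s : ℝ => nr (sb (LT T s) p))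
      ((2 / s) * (N * nr (sb (LT T s) p) -
        ∑ i : ι, nr (pderiv (none, i) (sb (LT T s) p)))) s := by
  have h := deriv_ip (J := J) s hs (sb (LT T 1) p) (sb (LT T 1) p)
  have h2 := (Complex.reCLM.hasFDerivAt).comp_hasDerivAt s h
  have e1 : (fun s : ℝ => nr (sb (LT T s) p)) =
      (Complex.reCLM : ℂ → ℝ) ∘ (fun s : ℝ => ip (sb (dg s) (sb (LT T 1) p))
        (sb (dg s) (sb (LT T 1) p))) := by
    funext s
    rw [LT_comp]
    rfl
  rw [e1]
  refine h2.congr_deriv ?_
  rw [← LT_comp]
  have hom : (sb (LT T s) p).IsHomogeneous N := by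
    have := hp.aeval (fun a => ∑ x, C (LT T s a x) * X x : K × ι → MvPolynomial (Option J × ι) ℂ)
      (n := 1) (fun a => IsHomogeneous.sum _ _ _ (fun x _ => isHomogeneous_C_mul_X _ _))
    rw [one_mul] at this
    exact this
  have he := euler_ip hom (sb (LT T s) p)
  rw [Fintype.sum_prod_type, Fintype.sum_option] at he
  have e2 : (∑ j : J, ∑ i : ι, ip (pderiv (some j, i) (sb (LT T s) p))
      (pderiv (some j, i) (sb (LT T s) p))) = N * ip (sb (LT T s) p) (sb (LT T s) p) -
        ∑ i : ι, ip (pderiv (none, i) (sb (LT T s) p)) (pderiv (none, i) (sb (LT T s) p)) := by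
    rw [← he]
    ring
  rw [e2]
  have e3 : (2 / (s : ℂ)) * (N * ip (sb (LT T s) p) (sb (LT T s) p) -
        ∑ i : ι, ip (pderiv (none, i) (sb (LT T s) p)) (pderiv (none, i) (sb (LT T s) p))) =
      (((2 / s) * (N * nr (sb (LT T s) p) -
        ∑ i : ι, nr (pderiv (none, i) (sb (LT T s) p))) : ℝ) : ℂ) := by
    push_cast
    simp_rw [nr_cast]
  rw [e3]
  exact Complex.ofReal_re _

/-- product over the copies -/
noncomputable def MM (K : Type*) [Fintype K] [DecidableEq K] (f : MvPolynomial ι ℂ) :
    MvPolynomial (K × ι) ℂ := ∏ a : K, cp a f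

/-- one linear form removed -/
noncomputable def M1 (K : Type*) [Fintype K] [DecidableEq K] (f P : MvPolynomial ι ℂ) :
    MvPolynomial (K × ι) ℂ := ∑ a : K, cp a f * ∏ b ∈ Finset.univ.erase a, cp b P

/-- derivative in the common variable -/
noncomputable def DL (l : ι → ℂ) (U : MvPolynomial (Option J × ι) ℂ) :
    MvPolynomial (Option J × ι) ℂ := ∑ i, C (conj (l i)) * pderiv (none, i) U

/-- leg inequality -/
def Leg (ι : Type*) [Fintype ι] [DecidableEq ι] (T : K → J → ℝ) (s ε φ : ℝ) : Prop :=
  ∀ (l : ι → ℂ) (f : MvPolynomial ι ℂ),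
    ε * nr (sb (LT T s) (MM K (lin l * f))) ≤
      φ * (ip (sb (LT T s) (M1 K f (lin l * f))) (DL l (sb (LT T s) (MM K (lin l * f))))).re

theorem lin_hom (l : ι → ℂ) : (lin l).IsHomogeneous 1 :=
  IsHomogeneous.sum _ _ _ (fun i _ => isHomogeneous_C_mul_X _ _)

theorem pol_eq {m : ℕ} (L : Fin m → ι → ℂ) : pol L = ∏ i, lin (L i) := rfl

theorem der_prod {S R : Type*} [DecidableEq S] [CommRing R] [Algebra ℂ R]
    (D : Derivation ℂ R R) (s : Finset S) (f : S → R) :
    D (∏ i ∈ s, f i) = ∑ i ∈ s, D (f i) * ∏ j ∈ s.erase i, f j := by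
  induction s using Finset.induction_on with
  | empty => simp
  | insert a s ha ih =>
    rw [Finset.prod_insert ha, Derivation.leibniz, ih, Finset.sum_insert ha,
      Finset.erase_insert ha, smul_eq_mul, smul_eq_mul, Finset.mul_sum, add_comm]
    congr 1
    · rw [mul_comm]
    · refine Finset.sum_congr rfl (fun i hi => ?_)
      have hia : a ∉ s.erase i := fun h => ha (Finset.mem_of_mem_erase h)
      have : (insert a s).erase i = insert a (s.erase i) :=
        Finset.erase_insert_of_ne (fun h => ha (h ▸ hi))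
      rw [this, Finset.prod_insert hia]
      ring

theorem pd_lin (l : ι → ℂ) (i : ι) : pderiv i (lin l) = C (l i) := by
  unfold lin
  rw [map_sum, Finset.sum_eq_single i]
  · rw [Derivation.leibniz, pderiv_C, pderiv_X_self, smul_zero, add_zero, smul_eq_mul, mul_one]
  · intro j _ hj
    rw [Derivation.leibniz, pderiv_C, pderiv_X_of_ne hj, smul_zero, smul_zero, add_zero]
  · intro h; exact absurd (Finset.mem_univ i) h

theorem MM_hom (f : MvPolynomial ι ℂ) (m : ℕ) (hf : f.IsHomogeneous m) :
    (MM K f).IsHomogeneous (Fintype.card K * m) := by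
  unfold MM
  have := IsHomogeneous.prod (Finset.univ : Finset K) (fun a => cp a f) (fun _ => m)
    (fun a _ => (IsHomogeneous.rename_isHomogeneous hf))
  rwa [Finset.sum_const, Finset.card_univ, smul_eq_mul] at this

/-- sum over the legs -/
theorem leg_sum (T : K → J → ℝ) (s : ℝ) {m : ℕ} (L : Fin m → ι → ℂ) :
    ∑ i : ι, ip (pderiv (none, i) (sb (LT T s) (MM K (pol L))))
      (pderiv (none, i) (sb (LT T s) (MM K (pol L)))) =
    ∑ e : Fin m, ip (sb (LT T s) (M1 K (∏ j ∈ Finset.univ.erase e, lin (L j)) (pol L)))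
      (DL (L e) (sb (LT T s) (MM K (pol L)))) := by
  set H := sb (LT T s) (MM K (pol L)) with hH
  have h1 : ∀ i, pderiv (none, i) H = ∑ e : Fin m, C (L e i) *
      sb (LT T s) (M1 K (∏ j ∈ Finset.univ.erase e, lin (L j)) (pol L)) := by
    intro i
    rw [hH, pd_none]
    have h2 : ∀ a : K, pderiv (a, i) (MM K (pol L)) =
        ∑ e : Fin m, C (L e i) * (cp a (∏ j ∈ Finset.univ.erase e, lin (L j)) *
          ∏ b ∈ Finset.univ.erase a, cp b (pol L)) := by
      intro a
      unfold MM
      rw [der_prod, Finset.sum_eq_single a]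
      · rw [pderiv_cp, if_pos rfl]
        have h3 : pderiv i (pol L) = ∑ e : Fin m, C (L e i) *
            ∏ j ∈ Finset.univ.erase e, lin (L j) := by
          rw [pol_eq, der_prod]
          exact Finset.sum_congr rfl (fun e _ => by rw [pd_lin])
        rw [h3, map_sum, Finset.sum_mul]
        refine Finset.sum_congr rfl (fun e _ => ?_)
        rw [cp_Cm]
        ring
      · intro b _ hb
        rw [pderiv_cp, if_neg (Ne.symm hb), zero_mul]
      · intro h; exact absurd (Finset.mem_univ a) h
    simp_rw [h2]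
    simp_rw [map_sum, sb_Cm]
    rw [Finset.sum_comm]
    refine Finset.sum_congr rfl (fun e _ => ?_)
    unfold M1
    rw [map_sum, Finset.mul_sum]
  have h4 : ∀ i, ip (pderiv (none, i) H) (pderiv (none, i) H) = ∑ e : Fin m,
      conj (L e i) * ip (sb (LT T s) (M1 K (∏ j ∈ Finset.univ.erase e, lin (L j)) (pol L)))
        (pderiv (none, i) H) := by
    intro i
    conv_lhs => rw [show ip (pderiv (none, i) H) (pderiv (none, i) H) =
      ip (∑ e : Fin m, C (L e i) *
      sb (LT T s) (M1 K (∏ j ∈ Finset.univ.erase e, lin (L j)) (pol L)))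
        (pderiv (none, i) H) by rw [← h1 i]]
    rw [ip_sum_left]
    exact Finset.sum_congr rfl (fun e _ => by rw [ip_smul_left])
  simp_rw [h4]
  rw [Finset.sum_comm]
  refine Finset.sum_congr rfl (fun e _ => ?_)
  unfold DL
  rw [ip_sum_right]
  exact Finset.sum_congr rfl (fun i _ => by rw [ip_smul_right])

theorem leg_total (T : K → J → ℝ) (s ε φ : ℝ) (hleg : Leg ι T s ε φ) {m : ℕ}
    (L : Fin m → ι → ℂ) :
    m * (ε * nr (sb (LT T s) (MM K (pol L)))) ≤
      φ * ∑ i : ι, nr (pderiv (none, i) (sb (LT T s) (MM K (pol L)))) := by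
  have h := leg_sum T s L
  have h2 : ∑ i : ι, nr (pderiv (none, i) (sb (LT T s) (MM K (pol L)))) =
      ∑ e : Fin m, (ip (sb (LT T s) (M1 K (∏ j ∈ Finset.univ.erase e, lin (L j)) (pol L)))
      (DL (L e) (sb (LT T s) (MM K (pol L))))).re := by
    have := congrArg Complex.re h
    rw [Complex.re_sum, Complex.re_sum] at this
    exact this
  rw [h2, Finset.mul_sum]
  have h3 : (m : ℝ) * (ε * nr (sb (LT T s) (MM K (pol L)))) =
      ∑ e : Fin m, ε * nr (sb (LT T s) (MM K (pol L))) := by
    rw [Finset.sum_const, Finset.card_univ, Fintype.card_fin, nsmul_eq_mul]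
  rw [h3]
  refine Finset.sum_le_sum (fun e _ => ?_)
  have h4 : pol L = lin (L e) * ∏ j ∈ Finset.univ.erase e, lin (L j) := by
    rw [pol_eq]
    exact (Finset.mul_prod_erase Finset.univ (fun i => lin (L i)) (Finset.mem_univ e)).symm
  have h5 := hleg (L e) (∏ j ∈ Finset.univ.erase e, lin (L j))
  rw [← h4] at h5
  exact h5

/-- monotonicity along the path -/
theorem path_mono (T : K → J → ℝ) {m : ℕ} (L : Fin m → ι → ℂ) (a b : ℝ) (ha : 0 < a)
    (ε φ : ℝ → ℝ) (hφ : ∀ s, a ≤ s → s ≤ b → 0 < φ s)
    (hd : ∀ s, a ≤ s → s ≤ b →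
      HasDerivAt φ ((2 / s) * (Fintype.card K * φ s - ε s)) s)
    (hleg : ∀ s, a ≤ s → s ≤ b → Leg ι T s (ε s) (φ s)) (s t : ℝ) (has : a ≤ s) (hst : s ≤ t)
    (htb : t ≤ b) :
    nr (sb (LT T t) (MM K (pol L))) * φ s ^ m ≤ nr (sb (LT T s) (MM K (pol L))) * φ t ^ m := by
  set F : ℝ → ℝ := fun s => nr (sb (LT T s) (MM K (pol L))) with hF
  have hhom := MM_hom (K := K) (pol L) m (pol_hom L)
  have hder : ∀ x ∈ Set.Icc a b, HasDerivAt (fun x => F x / φ x ^ m)
      (((2 / x) * ((Fintype.card K * m : ℕ) * F x -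
        ∑ i : ι, nr (pderiv (none, i) (sb (LT T x) (MM K (pol L))))) * φ x ^ m -
        F x * (m * φ x ^ (m - 1) * ((2 / x) * (Fintype.card K * φ x - ε x)))) /
          (φ x ^ m) ^ 2) x := by
    intro x hx
    have h1 := deriv_nr T x (by linarith [hx.1] : (0 : ℝ) < x).ne' (MM K (pol L)) _ hhom
    have h2 := (hd x hx.1 hx.2).pow m
    exact h1.div h2 (pow_ne_zero _ (hφ x hx.1 hx.2).ne')
  have hanti : AntitoneOn (fun x => F x / φ x ^ m) (Set.Icc a b) := by
    apply antitoneOn_of_deriv_nonpos (convex_Icc a b)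
    · intro x hx
      exact (hder x hx).continuousAt.continuousWithinAt
    · intro x hx
      rw [interior_Icc] at hx
      exact (hder x ⟨hx.1.le, hx.2.le⟩).differentiableAt.differentiableWithinAt
    · intro x hx
      rw [interior_Icc] at hx
      have hx' : x ∈ Set.Icc a b := ⟨hx.1.le, hx.2.le⟩
      rw [(hder x hx').deriv]
      apply div_nonpos_of_nonpos_of_nonneg _ (sq_nonneg _)
      have hx0 : 0 < x := lt_of_lt_of_le ha hx'.1
      have hl := leg_total T x (ε x) (φ x) (hleg x hx'.1 hx'.2) L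
      have hp := hφ x hx'.1 hx'.2
      rcases Nat.eq_zero_or_pos m with h0 | h0
      · subst h0
        have e : ∑ i : ι, nr (pderiv (none, i) (sb (LT T x) (MM K (pol L)))) = 0 := by
          refine Finset.sum_eq_zero (fun i _ => ?_)
          have : pol L = 1 := by
            rw [pol_eq]
            simp
          have h3 : MM K (pol L) = 1 := by
            unfold MM
            rw [this]
            simp
          rw [h3, map_one, pderiv_one]
          unfold nr
          rw [ip_zero_left]
          rfl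
        rw [e]
        simp
      · have e : φ x ^ m = φ x ^ (m - 1) * φ x := by
          rw [← pow_succ]
          congr 1
          omega
        have e2 : (2 / x) * ((Fintype.card K * m : ℕ) * F x -
            ∑ i : ι, nr (pderiv (none, i) (sb (LT T x) (MM K (pol L))))) * φ x ^ m -
            F x * (m * φ x ^ (m - 1) * ((2 / x) * (Fintype.card K * φ x - ε x))) =
            (2 / x) * φ x ^ (m - 1) * (m * (ε x * F x) -
              φ x * ∑ i : ι, nr (pderiv (none, i) (sb (LT T x) (MM K (pol L))))) := by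
          rw [e]
          push_cast
          ring
        rw [e2]
        apply mul_nonpos_of_nonneg_of_nonpos
        · positivity
        · linarith
  have h := hanti (Set.mem_Icc.2 ⟨has, hst.trans htb⟩) (Set.mem_Icc.2 ⟨has.trans hst, htb⟩) hst
  have p1 := hφ s has (hst.trans htb)
  have p2 := hφ t (has.trans hst) htb
  have h' : F t / φ t ^ m ≤ F s / φ s ^ m := h
  rw [div_le_div_iff₀ (pow_pos p2 m) (pow_pos p1 m)] at h'
  exact h'

end path

end Pool.Agent.helper61.TCM
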