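import Pool.Agent.helper61.TCM.D

set_option linter.all false
set_option autoImplicit false

/-!
# Two copies: monotonicity (MP_2dd521_co)
-/

namespace Pool.Agent.helper61.TCM

open MvPolynomial Finset MeasureTheory
open scoped ComplexConjugate ComplexOrder
open Pool.Agent.helper80.LSZ
open Pool.Agent.helper16.Fock

section perm

variable {ι : Type*} [Fintype ι] [DecidableEq ι]
variable {J : Type*} [Fintype J] [DecidableEq J]
variable {K : Type*} [Fintype K] [DecidableEq K]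

/-- the copies matrix `1 + s² Σ_j T a j T b j` -/
noncomputable def CM (T : K → J → ℝ) (s : ℝ) : Matrix K K ℂ := fun a b =>
  ((1 + s ^ 2 * ∑ j, T a j * T b j : ℝ) : ℂ)

theorem nr_MM (T : K → J → ℝ) (s : ℝ) {m : ℕ} (L : Fin m → ι → ℂ)
    (B : Matrix (Fin m) (Fin m) ℂ) (hB : ∀ i j, B i j = ∑ x, L i x * conj (L j x)) :
    ((nr (sb (LT T s) (MM K (pol L))) : ℝ) : ℂ) = (Matrix.kronecker (CM T s) B).permanent := by
  set Lt : K × Fin m → Option J × ι → ℂ := fun a x =>
    L a.2 x.2 * x.1.elim 1 (fun j => ((s * T a.1 j : ℝ) : ℂ)) with hLt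
  have h := wick Lt Lt 0
  have e1 : (Matrix.kronecker (CM T s) B).permanent =
      Matrix.permanent (fun a b => ∑ x, Lt a x * conj (Lt b x)) := by
    congr 1
    funext a b
    obtain ⟨a, i⟩ := a
    obtain ⟨b, j⟩ := b
    rw [Matrix.kronecker, Matrix.kroneckerMap_apply, hB, hLt, Fintype.sum_prod_type,
      Fintype.sum_option]
    simp only [Option.elim_none, Option.elim_some, mul_one]
    have e2 : ∀ j' : J, ∑ x, L i x * ((s * T a j' : ℝ) : ℂ) *
        conj (L j x * ((s * T b j' : ℝ) : ℂ)) =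
        (((s ^ 2 * (T a j' * T b j') : ℝ) : ℂ)) * ∑ x, L i x * conj (L j x) := by
      intro j'
      rw [Finset.mul_sum]
      refine Finset.sum_congr rfl (fun x _ => ?_)
      rw [map_mul, Complex.conj_ofReal]
      push_cast
      ring
    simp_rw [e2]
    rw [← Finset.sum_mul]
    generalize ∑ x, L i x * conj (L j x) = S0
    unfold CM
    push_cast
    rw [Finset.mul_sum]
    ring
  rw [e1]
  have e3 : (fun z : Option J × ι → ℂ => pf Lt z * conj (pf Lt z) * nsq z ^ 0) =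
      fun z => conj (eval z (sb (LT T s) (MM K (pol L)))) *
        eval z (sb (LT T s) (MM K (pol L))) := by
    funext z
    have e4 : eval z (sb (LT T s) (MM K (pol L))) = pf Lt z := by
      rw [eval_sb]
      unfold MM
      rw [map_prod]
      unfold pf
      rw [Fintype.prod_prod_type]
      refine Finset.prod_congr rfl (fun a _ => ?_)
      unfold cp
      rw [eval_rename, eval_pol]
      unfold pf
      refine Finset.prod_congr rfl (fun i _ => ?_)
      rw [Fintype.sum_prod_type, Finset.sum_comm]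
      refine Finset.sum_congr rfl (fun x _ => ?_)
      rw [Function.comp_apply, Fintype.sum_prod_type, Finset.mul_sum]
      refine Finset.sum_congr rfl (fun o _ => ?_)
      rw [Finset.sum_eq_single x]
      · unfold LT
        rw [if_pos rfl, hLt]
        ring
      · intro y _ hy
        unfold LT
        rw [if_neg (Ne.symm hy), zero_mul]
      · intro h; exact absurd (Finset.mem_univ x) h
    rw [e4, pow_zero, mul_one, mul_comm]
  rw [e3] at h
  rw [nr_cast]
  unfold ip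
  rw [h]
  simp

end perm

section two

variable {ι : Type*} [Fintype ι] [DecidableEq ι]

/-- the two signs -/
def T2 : Fin 2 → Unit → ℝ := fun a _ => if a = 0 then 1 else -1

theorem two_T2 (s : ℝ) : Two (LT (ι := ι) T2 s) (1 + s ^ 2) (1 - s ^ 2) := by
  intro a b i j
  unfold gm
  rw [Fintype.sum_prod_type, Fintype.sum_option]
  simp only [Finset.univ_unique, Finset.sum_singleton]
  have h1 : ∀ (o : Option Unit) (c d : ℂ), (∑ x : ι, conj (if i = x then c else 0) *
      (if j = x then d else 0)) = if i = j then conj c * d else 0 := by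
    intro o c d
    rw [Finset.sum_eq_single i]
    · rw [if_pos rfl]
      by_cases h : i = j
      · rw [if_pos h, if_pos h.symm]
      · rw [if_neg h, if_neg (Ne.symm h), mul_zero]
    · intro x _ hx
      rw [if_neg (Ne.symm hx), map_zero, zero_mul]
    · intro h; exact absurd (Finset.mem_univ i) h
  unfold LT
  simp only [Option.elim_none, Option.elim_some]
  rw [h1 none, h1 none]
  by_cases hij : i = j
  · rw [if_pos hij, if_pos hij, if_pos hij]
    unfold T2
    fin_cases a <;> fin_cases b <;> simp <;> ring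
  · rw [if_neg hij, if_neg hij, if_neg hij, add_zero]

theorem leg_T2 (s : ℝ) (h1 : s ^ 2 < 1)
    (h8 : (1 + s ^ 2) ^ 2 + (1 - s ^ 2) ^ 2 ≤ 8 * (1 - s ^ 2) * 2) :
    Leg ι T2 s 4 (2 + 2 * s ^ 4) := by
  intro l f
  set P := lin l * f with hP
  have hΛ := two_T2 (ι := ι) s
  set Λ := LT (ι := ι) T2 s with hΛd
  have h := leg2 hΛ (by linarith) (by nlinarith [sq_nonneg s]) (by
    have : (1 + s ^ 2) + (1 - s ^ 2) = (2 : ℝ) := by ring
    rw [this]; exact h8) l f
  rw [← hP] at h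
  have eM : MM (Fin 2) P = cp 0 P * cp 1 P := by
    unfold MM
    rw [Fin.prod_univ_two]
  have eM1 : M1 (Fin 2) f P = cp 0 f * cp 1 P + cp 0 P * cp 1 f := by
    unfold M1
    rw [Fin.sum_univ_two]
    have a0 : (Finset.univ : Finset (Fin 2)).erase 0 = {1} := by decide
    have a1 : (Finset.univ : Finset (Fin 2)).erase 1 = {0} := by decide
    rw [a0, a1, Finset.prod_singleton, Finset.prod_singleton]
    ring
  have eD : DL l (sb Λ (cp 0 P * cp 1 P)) =
      sb Λ (cp 0 (dl l P) * cp 1 P) + sb Λ (cp 0 P * cp 1 (dl l P)) := by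
    unfold DL
    have : ∀ i, C (conj (l i)) * pderiv (none, i) (sb Λ (cp 0 P * cp 1 P)) =
        sb Λ (cp 0 (C (conj (l i)) * pderiv i P) * cp 1 P) +
          sb Λ (cp 0 P * cp 1 (C (conj (l i)) * pderiv i P)) := by
      intro i
      rw [hΛd, pd_none, Fin.sum_univ_two, pd0, pd1, cp_Cm, cp_Cm, mul_left_comm _ (C _),
        mul_assoc (C _), sb_Cm, sb_Cm]
      ring
    simp_rw [this]
    rw [Finset.sum_add_distrib, ← map_sum, ← map_sum, ← Finset.sum_mul, ← Finset.mul_sum,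
      ← map_sum, ← map_sum]
    rfl
  have e0 : nr (sb Λ (MM (Fin 2) P)) = (br Λ P P P P).re := by
    rw [eM]; rfl
  have e1 : (ip (sb Λ (M1 (Fin 2) f P)) (DL l (sb Λ (MM (Fin 2) P)))).re =
      2 * ((br Λ f P (dl l P) P).re + (br Λ f P P (dl l P)).re) := by
    rw [eM, eM1, eD, map_add, ip_add_left, ip_add_right, ip_add_right]
    have s1 : ip (sb Λ (cp 0 P * cp 1 f)) (sb Λ (cp 0 (dl l P) * cp 1 P)) =
        br Λ f P P (dl l P) := br_swap hΛ P f (dl l P) P
    have s2 : ip (sb Λ (cp 0 P * cp 1 f)) (sb Λ (cp 0 P * cp 1 (dl l P))) =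
        br Λ f P (dl l P) P := br_swap hΛ P f P (dl l P)
    rw [s1, s2]
    show (br Λ f P (dl l P) P + br Λ f P P (dl l P) +
      (br Λ f P P (dl l P) + br Λ f P (dl l P) P)).re = _
    simp only [Complex.add_re]
    ring
  rw [e0, e1]
  have e2 : (1 + s ^ 2) ^ 2 + (1 - s ^ 2) ^ 2 = 2 + 2 * s ^ 4 := by ring
  have e3 : (1 + s ^ 2) + (1 - s ^ 2) = (2 : ℝ) := by ring
  rw [e2, e3] at h
  linarith

/-- `[[1, s], [s, 1]]` -/
noncomputable def As (s : ℝ) : Matrix (Fin 2) (Fin 2) ℂ := !![1, (s : ℂ); (s : ℂ), 1]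

theorem CM_T2 (s : ℝ) : CM T2 s = ((1 + s ^ 2 : ℝ) : ℂ) • As ((1 - s ^ 2) / (1 + s ^ 2)) := by
  have h : (1 + (s : ℂ) ^ 2) ≠ 0 := by
    have : (1 + s ^ 2 : ℝ) ≠ 0 := by positivity
    exact_mod_cast this
  funext a b
  unfold CM T2 As
  fin_cases a <;> fin_cases b <;> simp <;> field_simp <;> ring

/-- two copies: the ratio is monotone (interior) -/
theorem two_mono0 {m : ℕ} (B : Matrix (Fin m) (Fin m) ℂ) (hB : B.PosSemidef) (σ τ : ℝ)
    (h0 : 0 < σ) (h7 : 1 ≤ 7 * σ ^ 2 + 8 * σ) (hστ : σ ≤ τ) (hτ : τ < 1) :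
    (1 + τ ^ 2) ^ m * (Matrix.kronecker (As σ) B).permanent.re ≤
      (1 + σ ^ 2) ^ m * (Matrix.kronecker (As τ) B).permanent.re := by
  obtain ⟨L, hL⟩ := exists_fac B hB m (Matrix.rank_le_card_height B |>.trans (by simp))
  -- parameters
  set s : ℝ := Real.sqrt ((1 - τ) / (1 + τ)) with hs
  set t : ℝ := Real.sqrt ((1 - σ) / (1 + σ)) with ht
  have hσ1 : σ < 1 := lt_of_le_of_lt hστ hτ
  have hτ0 : 0 < τ := lt_of_lt_of_le h0 hστ
  have hs2 : s ^ 2 = (1 - τ) / (1 + τ) := Real.sq_sqrt (div_nonneg (by linarith) (by linarith))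
  have ht2 : t ^ 2 = (1 - σ) / (1 + σ) := Real.sq_sqrt (div_nonneg (by linarith) (by linarith))
  have hs0 : 0 < s := Real.sqrt_pos.2 (div_pos (by linarith) (by linarith))
  have ht0 : 0 < t := Real.sqrt_pos.2 (div_pos (by linarith) (by linarith))
  have hst : s ≤ t := by
    apply Real.sqrt_le_sqrt
    rw [div_le_div_iff₀ (by linarith) (by linarith)]
    nlinarith
  have hxi : ∀ x, s ≤ x → x ≤ t → x ^ 2 < 1 ∧
      (1 + x ^ 2) ^ 2 + (1 - x ^ 2) ^ 2 ≤ 8 * (1 - x ^ 2) * 2 := by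
    intro x hx1 hx2
    have hx0 : 0 < x := lt_of_lt_of_le hs0 hx1
    have h1 : x ^ 2 ≤ (1 - σ) / (1 + σ) := by
      rw [← ht2]
      exact pow_le_pow_left₀ hx0.le hx2 2
    have h2 : (1 - σ) / (1 + σ) < 1 := by
      rw [div_lt_one (by linarith)]
      linarith
    have h3 : x ^ 2 * (1 + σ) ≤ 1 - σ := by
      rwa [le_div_iff₀ (by linarith)] at h1
    refine ⟨lt_of_le_of_lt h1 h2, ?_⟩
    -- 2 + 2 y^2 ≤ 16 (1 - y), y = x^2
    set y := x ^ 2 with hy
    have hy0 : 0 ≤ y := sq_nonneg x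
    have hy1 : y ≤ (1 - σ) / (1 + σ) := h1
    set r := (1 - σ) / (1 + σ) with hr
    have hr1 : 1 + r ^ 2 ≤ 8 * (1 - r) := by
      have e : 8 * (1 - r) - (1 + r ^ 2) = (14 * σ ^ 2 + 16 * σ - 2) / (1 + σ) ^ 2 := by
        rw [hr]
        field_simp
        ring
      have : 0 ≤ (14 * σ ^ 2 + 16 * σ - 2) / (1 + σ) ^ 2 := div_nonneg (by linarith) (sq_nonneg _)
      linarith
    nlinarith
  have h := path_mono (ι := Fin m) T2 L s t hs0 (fun _ => 4) (fun x => 2 + 2 * x ^ 4)
    (fun x _ _ => by positivity)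
    (fun x hx1 hx2 => by
      have hx0 : 0 < x := lt_of_lt_of_le hs0 hx1
      have h1 : HasDerivAt (fun x : ℝ => 2 + 2 * x ^ 4) (2 * (4 * x ^ 3)) x := by
        have := ((hasDerivAt_pow 4 x).const_mul 2).const_add 2
        simpa using this
      refine h1.congr_deriv ?_
      rw [Fintype.card_fin]
      field_simp
      push_cast
      ring)
    (fun x hx1 hx2 => leg_T2 x (hxi x hx1 hx2).1 (hxi x hx1 hx2).2) s t le_rfl hst le_rfl
  have hval : ∀ (x y : ℝ), 0 < y → x ^ 2 = (1 - y) / (1 + y) →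
      nr (sb (LT T2 x) (MM (Fin 2) (pol L))) =
        (1 + x ^ 2) ^ (2 * m) * (Matrix.kronecker (As y) B).permanent.re := by
    intro x y hy hx
    have h1 := nr_MM T2 x L B hL
    rw [CM_T2] at h1
    have h2 : (1 - x ^ 2) / (1 + x ^ 2) = y := by
      rw [hx]
      field_simp
      ring
    rw [h2] at h1
    have h3 : Matrix.kronecker (((1 + x ^ 2 : ℝ) : ℂ) • As y) B =
        ((1 + x ^ 2 : ℝ) : ℂ) • Matrix.kronecker (As y) B := Matrix.smul_kronecker _ _ _
    rw [h3, Matrix.permanent_smul] at h1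
    have h4 := congrArg Complex.re h1
    rw [Complex.ofReal_re] at h4
    rw [h4]
    have h5 : Fintype.card (Fin 2 × Fin m) = 2 * m := by simp
    rw [h5, ← Complex.ofReal_pow, Complex.re_ofReal_mul]
  rw [hval t σ h0 ht2, hval s τ hτ0 hs2] at h
  have hφ : ∀ (x y : ℝ), 0 < y → x ^ 2 = (1 - y) / (1 + y) →
      2 + 2 * x ^ 4 = (1 + x ^ 2) ^ 2 * (1 + y ^ 2) := by
    intro x y hy hx
    have : x ^ 4 = (x ^ 2) ^ 2 := by ring
    rw [this, hx]
    field_simp
    ring
  rw [hφ t σ h0 ht2, hφ s τ hτ0 hs2, mul_pow, mul_pow, ← pow_mul, ← pow_mul] at h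
  have hp1 : 0 < (1 + t ^ 2) ^ (2 * m) := by positivity
  have hp2 : 0 < (1 + s ^ 2) ^ (2 * m) := by positivity
  have h9 : ((1 + t ^ 2) ^ (2 * m) * (1 + s ^ 2) ^ (2 * m)) *
      ((1 + τ ^ 2) ^ m * (Matrix.kronecker (As σ) B).permanent.re) ≤
      ((1 + t ^ 2) ^ (2 * m) * (1 + s ^ 2) ^ (2 * m)) *
      ((1 + σ ^ 2) ^ m * (Matrix.kronecker (As τ) B).permanent.re) := by
    calc _ = (1 + t ^ 2) ^ (2 * m) * (Matrix.kronecker (As σ) B).permanent.re *
          ((1 + s ^ 2) ^ (2 * m) * (1 + τ ^ 2) ^ m) := by ring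
      _ ≤ _ := h
      _ = _ := by ring
  exact le_of_mul_le_mul_left h9 (by positivity)

end two

end Pool.Agent.helper61.TCM
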