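import Pool.Agent.helper61.TCM.E2

set_option linter.all false
set_option autoImplicit false

/-!
# Two copies: monotonicity, final form (MP_2dd521_co)
-/

namespace Pool.Agent.helper61.TCM

open MvPolynomial Finset MeasureTheory
open scoped ComplexConjugate ComplexOrder
open Pool.Agent.helper80.LSZ
open Pool.Agent.helper16.Fock

theorem per_real {m : ℕ} (B : Matrix (Fin m) (Fin m) ℂ) (hB : B.PosSemidef) (y : ℝ)
    (hy : 0 < y) (hy1 : y ≤ 1) :
    (Matrix.kronecker (As y) B).permanent =
      (((Matrix.kronecker (As y) B).permanent.re : ℝ) : ℂ) := by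
  obtain ⟨L, hL⟩ := exists_fac B hB m (Matrix.rank_le_card_height B |>.trans (by simp))
  set x : ℝ := Real.sqrt ((1 - y) / (1 + y)) with hx
  have hx2 : x ^ 2 = (1 - y) / (1 + y) := Real.sq_sqrt (div_nonneg (by linarith) (by linarith))
  have h1 := nr_MM T2 x L B hL
  rw [CM_T2] at h1
  have h2 : (1 - x ^ 2) / (1 + x ^ 2) = y := by
    rw [hx2]
    field_simp
    ring
  rw [h2] at h1
  have h3 : Matrix.kronecker (((1 + x ^ 2 : ℝ) : ℂ) • As y) B =
      ((1 + x ^ 2 : ℝ) : ℂ) • Matrix.kronecker (As y) B := Matrix.smul_kronecker _ _ _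
  rw [h3, Matrix.permanent_smul, ← Complex.ofReal_pow] at h1
  have hc : (0 : ℝ) < (1 + x ^ 2) ^ Fintype.card (Fin 2 × Fin m) := by positivity
  have h5 : (Matrix.kronecker (As y) B).permanent =
      ((nr (sb (LT T2 x) (MM (Fin 2) (pol L))) / (1 + x ^ 2) ^ Fintype.card (Fin 2 × Fin m) : ℝ) :
        ℂ) := by
    rw [Complex.ofReal_div, h1]
    rw [mul_div_cancel_left₀]
    exact_mod_cast hc.ne'
  rw [h5, Complex.ofReal_re]

/-- two copies: the ratio is monotone -/
theorem two_mono {m : ℕ} (B : Matrix (Fin m) (Fin m) ℂ) (hB : B.PosSemidef) (σ τ : ℝ)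
    (h0 : 0 < σ) (h7 : 1 ≤ 7 * σ ^ 2 + 8 * σ) (hστ : σ ≤ τ) (hτ : τ ≤ 1) :
    (1 + (τ : ℂ) ^ 2) ^ m * (Matrix.kronecker (As σ) B).permanent ≤
      (1 + (σ : ℂ) ^ 2) ^ m * (Matrix.kronecker (As τ) B).permanent := by
  have key : (1 + τ ^ 2) ^ m * (Matrix.kronecker (As σ) B).permanent.re ≤
      (1 + σ ^ 2) ^ m * (Matrix.kronecker (As τ) B).permanent.re := by
    rcases lt_or_eq_of_le hτ with h1 | h1
    · exact two_mono0 B hB σ τ h0 h7 hστ h1
    rcases eq_or_lt_of_le hστ with h2 | h2
    · rw [h2]
    -- continuity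
    have hcont : Continuous (fun x : ℝ => (1 + σ ^ 2) ^ m *
        (Matrix.kronecker (As x) B).permanent.re -
        (1 + x ^ 2) ^ m * (Matrix.kronecker (As σ) B).permanent.re) := by
      have hper : Continuous (fun x : ℝ => (Matrix.kronecker (As x) B).permanent) := by
        unfold Matrix.permanent
        refine continuous_finset_sum _ (fun g _ => continuous_finset_prod _ (fun a _ => ?_))
        have e : (fun x : ℝ => Matrix.kronecker (As x) B (g a) a) =
            fun x : ℝ => As x (g a).1 a.1 * B (g a).2 a.2 := by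
          funext x
          rfl
        rw [e]
        refine Continuous.mul ?_ continuous_const
        unfold As
        generalize (g a).1 = u
        generalize a.1 = v
        fin_cases u <;> fin_cases v <;> simp <;> fun_prop
      have h3 := Complex.continuous_re.comp hper
      have h3' : Continuous (fun x : ℝ => (Matrix.kronecker (As x) B).permanent.re) := h3
      fun_prop
    have hclosed : IsClosed {x : ℝ | 0 ≤ (1 + σ ^ 2) ^ m *
        (Matrix.kronecker (As x) B).permanent.re -
        (1 + x ^ 2) ^ m * (Matrix.kronecker (As σ) B).permanent.re} :=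
      isClosed_le continuous_const hcont
    have hsub : Set.Ico σ 1 ⊆ {x : ℝ | 0 ≤ (1 + σ ^ 2) ^ m *
        (Matrix.kronecker (As x) B).permanent.re -
        (1 + x ^ 2) ^ m * (Matrix.kronecker (As σ) B).permanent.re} := by
      intro x hx
      have := two_mono0 B hB σ x h0 h7 hx.1 hx.2
      simp only [Set.mem_setOf_eq]
      linarith
    have hmem : (1 : ℝ) ∈ closure (Set.Ico σ 1) := by
      rw [closure_Ico (by linarith : σ ≠ 1)]
      exact ⟨by linarith, le_rfl⟩
    have h4 := hclosed.closure_subset_iff.2 hsub hmem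
    simp only [Set.mem_setOf_eq] at h4
    rw [h1]
    linarith
  rw [per_real B hB σ h0 (hστ.trans hτ), per_real B hB τ (lt_of_lt_of_le h0 hστ) hτ]
  exact_mod_cast key

end Pool.Agent.helper61.TCM
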