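import Pool.Agent.helper61.TCM.F
import Pool.Agent.helper96.LSZF.L8

set_option linter.all false
set_option autoImplicit false

/-!
# Paths of copies from the all-ones matrix to a forest (MP_2dd521_co)
-/

namespace Pool.Agent.helper61.TCM

open MvPolynomial Finset MeasureTheory
open scoped ComplexConjugate ComplexOrder
open Pool.Agent.helper80.LSZ
open Pool.Agent.helper16.Fock

variable {J : Type*} [Fintype J] [DecidableEq J]

theorem per_cont {K : Type*} [Fintype K] [DecidableEq K] (M : ℝ → Matrix K K ℂ)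
    (h : ∀ a b, Continuous (fun s => M s a b)) : Continuous (fun s => (M s).permanent.re) := by
  have h1 : Continuous (fun s => (M s).permanent) := by
    unfold Matrix.permanent
    exact continuous_finset_sum _ (fun g _ => continuous_finset_prod _ (fun a _ => h _ _))
  exact Complex.continuous_re.comp h1

theorem CM_cont {K : Type*} [Fintype K] [DecidableEq K] (T : K → J → ℝ) (a b : K) :
    Continuous (fun s : ℝ => CM T s a b) := by
  unfold CM
  refine Complex.continuous_ofReal.comp ?_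
  fun_prop

/-- monotone path up to the all-ones matrix -/
theorem path_end {k m : ℕ} (T : Fin k → J → ℝ) (B : Matrix (Fin m) (Fin m) ℂ)
    (hB : B.PosSemidef) (ε φ : ℝ → ℝ) (hφ : ∀ s, 0 < s → s ≤ 1 → 0 < φ s)
    (hφper : ∀ s, 0 < s → s ≤ 1 → (CM T s).permanent = φ s)
    (hd : ∀ s, 0 < s → s ≤ 1 → HasDerivAt φ ((2 / s) * (k * φ s - ε s)) s)
    (hleg : ∀ s, 0 < s → s ≤ 1 → Leg (Fin m) T s (ε s) (φ s)) :
    (Matrix.kronecker (CM T 1) B).permanent.re * (CM T 0).permanent.re ^ m ≤
      (Matrix.kronecker (CM T 0) B).permanent.re * (CM T 1).permanent.re ^ m := by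
  obtain ⟨L, hL⟩ := exists_fac B hB m (Matrix.rank_le_card_height B |>.trans (by simp))
  have hnr : ∀ s, nr (sb (LT T s) (MM (Fin k) (pol L))) =
      (Matrix.kronecker (CM T s) B).permanent.re := by
    intro s
    have h := congrArg Complex.re (nr_MM T s L B hL)
    rwa [Complex.ofReal_re] at h
  have hin : ∀ s, 0 < s → s ≤ 1 →
      (Matrix.kronecker (CM T 1) B).permanent.re * (CM T s).permanent.re ^ m ≤
      (Matrix.kronecker (CM T s) B).permanent.re * (CM T 1).permanent.re ^ m := by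
    intro s hs0 hs1
    have h := path_mono (ι := Fin m) T L s 1 hs0 ε φ
      (fun x h1 h2 => hφ x (lt_of_lt_of_le hs0 h1) h2)
      (fun x h1 h2 => by
        rw [Fintype.card_fin]
        exact hd x (lt_of_lt_of_le hs0 h1) h2)
      (fun x h1 h2 => hleg x (lt_of_lt_of_le hs0 h1) h2) s 1 le_rfl hs1 le_rfl
    rw [hnr, hnr] at h
    rw [hφper s hs0 hs1, hφper 1 one_pos le_rfl, Complex.ofReal_re, Complex.ofReal_re]
    exact h
  have hc1 : Continuous (fun s : ℝ => (Matrix.kronecker (CM T s) B).permanent.re) :=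
    per_cont _ (fun a b => by
      have e : (fun s : ℝ => Matrix.kronecker (CM T s) B a b) =
          fun s : ℝ => CM T s a.1 b.1 * B a.2 b.2 := by
        funext s
        rfl
      rw [e]
      exact (CM_cont T _ _).mul continuous_const)
  have hc2 : Continuous (fun s : ℝ => (CM T s).permanent.re) :=
    per_cont _ (fun a b => CM_cont T _ _)
  have hclosed : IsClosed {s : ℝ |
      (Matrix.kronecker (CM T 1) B).permanent.re * (CM T s).permanent.re ^ m ≤
      (Matrix.kronecker (CM T s) B).permanent.re * (CM T 1).permanent.re ^ m} :=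
    isClosed_le (continuous_const.mul (hc2.pow m)) (hc1.mul continuous_const)
  have hsub : Set.Ioc (0 : ℝ) 1 ⊆ {s : ℝ |
      (Matrix.kronecker (CM T 1) B).permanent.re * (CM T s).permanent.re ^ m ≤
      (Matrix.kronecker (CM T s) B).permanent.re * (CM T 1).permanent.re ^ m} :=
    fun s hs => hin s hs.1 hs.2
  have hmem : (0 : ℝ) ∈ closure (Set.Ioc (0 : ℝ) 1) := by
    rw [closure_Ioc (by norm_num)]
    exact ⟨le_rfl, zero_le_one⟩
  exact hclosed.closure_subset_iff.2 hsub hmem

theorem per_ones (k : ℕ) : Matrix.permanent (fun (_ _ : Fin k) => (1 : ℂ)) =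
    ((k.factorial : ℕ) : ℂ) := by
  unfold Matrix.permanent
  simp [Fintype.card_perm]

/-- the end game: a monotone path from a forest to the all-ones matrix gives the inequality
of Pate for `k` copies -/
theorem pate_of_leg {k m : ℕ} (T : Fin k → J → ℝ) (B : Matrix (Fin m) (Fin m) ℂ)
    (hB : B.PosSemidef) (ε φ : ℝ → ℝ) (hφ : ∀ s, 0 < s → s ≤ 1 → 0 < φ s)
    (hφper : ∀ s, 0 < s → s ≤ 1 → (CM T s).permanent = φ s)
    (hd : ∀ s, 0 < s → s ≤ 1 → HasDerivAt φ ((2 / s) * (k * φ s - ε s)) s)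
    (hleg : ∀ s, 0 < s → s ≤ 1 → Leg (Fin m) T s (ε s) (φ s))
    (Gr : SimpleGraph (Fin k)) (hG : Gr.IsAcyclic)
    (hsupp : ∀ i j, i ≠ j → 1 + ∑ x, T i x * T j x ≠ 0 → Gr.Adj i j) :
    ((k.factorial : ℕ) : ℂ) ^ m * B.permanent ^ k ≤ (kron1 k B).permanent := by
  have h1 := path_end T B hB ε φ hφ hφper hd hleg
  have hA : ∀ i j, CM T 1 i j = ((1 + ∑ x, T i x * T j x : ℝ) : ℂ) := by
    intro i j
    unfold CM
    norm_num
  have h2 := Pool.Agent.helper96.LSZF.lsz_acyclic (CM T 1) B hB
    (fun i => by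
      rw [hA]
      have : 0 ≤ 1 + ∑ x, T i x * T i x :=
        add_nonneg zero_le_one (Finset.sum_nonneg (fun x _ => mul_self_nonneg _))
      exact_mod_cast this)
    (fun i j _ => by
      rw [hA, hA]
      have e : ∑ x, T j x * T i x = ∑ x, T i x * T j x :=
        Finset.sum_congr rfl (fun x _ => mul_comm _ _)
      rw [e, ← Complex.ofReal_mul]
      exact_mod_cast mul_self_nonneg _)
    Gr hG (fun i j hij h => hsupp i j hij (by
      intro h0
      apply h
      rw [hA, h0, Complex.ofReal_zero]))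
  rw [Fintype.card_fin, Fintype.card_fin, hφper 1 one_pos le_rfl] at h2
  have h0 : CM T 0 = fun _ _ => (1 : ℂ) := by
    funext a b
    unfold CM
    norm_num
  have hk : Matrix.kronecker (CM T 0) B = kron1 k B := by
    rw [h0]
    rfl
  rw [hk, hφper 1 one_pos le_rfl, Complex.ofReal_re] at h1
  have hp0 : (CM T 0).permanent.re = (k.factorial : ℝ) := by
    rw [h0, per_ones]
    simp
  rw [hp0] at h1
  -- real versions
  obtain ⟨L, hL⟩ := exists_fac B hB m (Matrix.rank_le_card_height B |>.trans (by simp))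
  have hreal : (Matrix.kronecker (CM T 1) B).permanent =
      (((Matrix.kronecker (CM T 1) B).permanent.re : ℝ) : ℂ) := by
    rw [← nr_MM T 1 L B hL, Complex.ofReal_re]
  have hreal0 : (kron1 k B).permanent = (((kron1 k B).permanent.re : ℝ) : ℂ) := by
    rw [W_eq L B hL k, Complex.ofReal_re]
  have hφ1 := hφ 1 one_pos le_rfl
  have h3 : ((φ 1 : ℝ) : ℂ) ^ m * (((k.factorial : ℕ) : ℂ) ^ m * B.permanent ^ k) ≤
      ((φ 1 : ℝ) : ℂ) ^ m * (kron1 k B).permanent := by
    calc ((φ 1 : ℝ) : ℂ) ^ m * (((k.factorial : ℕ) : ℂ) ^ m * B.permanent ^ k) =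
        ((k.factorial : ℕ) : ℂ) ^ m * (((φ 1 : ℝ) : ℂ) ^ m * B.permanent ^ k) := by ring
      _ ≤ ((k.factorial : ℕ) : ℂ) ^ m * (Matrix.kronecker (CM T 1) B).permanent :=
        mul_le_mul_of_nonneg_left h2 (by positivity)
      _ ≤ ((φ 1 : ℝ) : ℂ) ^ m * (kron1 k B).permanent := by
        rw [hreal, hreal0]
        have : (k.factorial : ℝ) ^ m * (Matrix.kronecker (CM T 1) B).permanent.re ≤
            φ 1 ^ m * (kron1 k B).permanent.re := by
          rw [mul_comm, mul_comm (φ 1 ^ m)]
          exact h1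
        exact_mod_cast this
  have h4 : (0 : ℂ) < ((φ 1 : ℝ) : ℂ) ^ m := by
    have : 0 < φ 1 ^ m := pow_pos hφ1 m
    exact_mod_cast this
  exact le_of_mul_le_mul_left h3 h4

end Pool.Agent.helper61.TCM
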