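import Pool.Agent.helper61.TCM.B

set_option linter.all false
set_option autoImplicit false

/-!
# Two copies: the leg inequality (MP_2dd521_co)
-/

namespace Pool.Agent.helper61.TCM

open MvPolynomial Finset MeasureTheory
open scoped ComplexConjugate
open Pool.Agent.helper80.LSZ
open Pool.Agent.helper16.Fock

variable {ι : Type*} [Fintype ι] [DecidableEq ι]
variable {σ : Type*} [Fintype σ] [DecidableEq σ]
variable {Λ : Fin 2 × ι → σ → ℂ} {p q : ℝ}

/-- the square of a difference -/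
theorem wr (hΛ : Two Λ p q) (f g : MvPolynomial ι ℂ) :
    0 ≤ (br Λ f g f g).re - (br Λ f g g f).re := by
  have h := nr_nonneg (sb Λ (cp 0 f * cp 1 g) - sb Λ (cp 0 g * cp 1 f))
  have e : nr (sb Λ (cp 0 f * cp 1 g) - sb Λ (cp 0 g * cp 1 f)) =
      (br Λ f g f g - br Λ f g g f - br Λ g f f g + br Λ g f g f).re := by
    unfold nr br
    have hs : ∀ u v : MvPolynomial σ ℂ, u - v = u + C (-1) * v := by
      intro u v
      rw [C_neg, C_1]
      ring
    rw [hs, ip_add_left, ip_add_right, ip_add_right, ip_smul_left, ip_smul_left, ip_smul_right,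
      ip_smul_right]
    simp only [map_neg, map_one]
    congr 1
    ring
  rw [e] at h
  have h1 : br Λ g f g f = br Λ f g f g := br_swap hΛ _ _ _ _
  have h2 : br Λ g f f g = br Λ f g g f := by rw [br_swap hΛ]
  rw [h1, h2] at h
  simp only [Complex.sub_re, Complex.add_re] at h
  linarith

/-- crossed terms are nonnegative -/
theorem cr_nonneg (hΛ : Two Λ p q) (hq : 0 ≤ q) (hpq : q ≤ p) (f g : MvPolynomial ι ℂ) :
    0 ≤ (br Λ f g g f).re := by
  have h := tpos hΛ hq hpq (Finset.univ : Finset Unit) (fun _ => f) (fun _ => g)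
  simpa using h

/-- the heart inequality -/
theorem heart (hΛ : Two Λ p q) (hq : 0 < q) (hpq : q ≤ p) (h8 : p ^ 2 + q ^ 2 ≤ 8 * q * (p + q))
    (l : ι → ℂ) (F : MvPolynomial ι ℂ) :
    0 ≤ (br Λ (lin l * F) (dl l (dl l (lin l * F))) F F).re := by
  rcases eq_or_lt_of_le (nl_nonneg l) with hn | hn
  · have hl := nl_zero l hn.symm
    subst hl
    have : lin (0 : ι → ℂ) = 0 := by
      unfold lin
      simp
    rw [this, zero_mul]
    have h0 : br Λ (C 0 * F) (dl 0 (dl 0 0)) F F = 0 := by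
      rw [br_c1]
      simp
    rw [C_0, zero_mul] at h0
    rw [h0]
    simp
  set n : ℝ := nl l with hnd
  set F1 := dl l F with hF1
  set F2 := dl l F1 with hF2
  have hP' : dl l (lin l * F) = C (n : ℂ) * F + lin l * F1 := dl_lin l F
  have hzF1 : dl l (lin l * F1) = C (n : ℂ) * F1 + lin l * F2 := dl_lin l F1
  have hP'' : dl l (dl l (lin l * F)) = C (2 * n : ℂ) * F1 + lin l * F2 := by
    rw [hP', dl_add, dl_C_mul, hzF1, ← hF1]
    have : (C (2 * n : ℂ) : MvPolynomial ι ℂ) = C (n : ℂ) + C (n : ℂ) := by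
      rw [← C_add]
      congr 1
      ring
    rw [this]
    ring
  -- names
  set u1 := br Λ F F1 F1 F with hu1
  set p1 := br Λ F F1 F F1 with hp1
  set xb := br Λ F F2 F1 F1 with hxb
  set u2 := br Λ F F2 F2 F with hu2
  set p2 := br Λ F F2 F F2 with hp2
  set U := br Λ F1 F2 F2 F1 with hU
  set V := br Λ F1 F2 F1 F2 with hV
  set w := br Λ F1 F1 F1 F1 with hw
  have hH : br Λ (lin l * F) (dl l (dl l (lin l * F))) F F =
      2 * n * (p * u1 + q * p1) + (p ^ 2 + q ^ 2) * xb + p * q * (u2 + p2) := by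
    rw [hP'', br_add2, br_c2, br_l1 hΛ, br_l2 hΛ, br_l1 hΛ, br_l1 hΛ, ← hF1, ← hF2,
      ← hu1, ← hp1, ← hxb, ← hu2, ← hp2]
    simp only [map_mul, Complex.conj_ofReal, map_ofNat]
    ring
  -- the conjugates
  have hxc : br Λ F1 F1 F2 F = conj xb := by
    rw [hxb, br_conj, br_swap hΛ]
  have hxc' : br Λ F1 F1 F F2 = conj xb := by
    rw [hxb, br_conj]
  have hU' : br Λ F2 F1 F1 F2 = U := by
    rw [hU, br_swap hΛ]
  have hV' : br Λ F2 F1 F2 F1 = V := by
    rw [hV, br_swap hΛ]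
  -- positivity of the exchangeable form
  have hT := tpos hΛ hq.le hpq (Finset.univ : Finset (Fin 3))
    ![F, F1, lin l * F1] ![C (n : ℂ) * F1, C (2 * (p + q) : ℂ) * F2, C (-2 : ℂ) * F1]
  have hTe0 : ∀ c1 c2 c3 : ℂ, ∑ i, ∑ j, br Λ ((![F, F1, lin l * F1] : Fin 3 → _) i)
      ((![C c1 * F1, C c2 * F2, C c3 * F1] : Fin 3 → _) j)
      ((![C c1 * F1, C c2 * F2, C c3 * F1] : Fin 3 → _) i)
      ((![F, F1, lin l * F1] : Fin 3 → _) j) =
      conj c1 * c1 * u1 + conj c2 * c1 * xb + conj c1 * c2 * conj xb +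
      conj c2 * c2 * U + conj c3 * c1 * (p * xb + q * w) + conj c1 * c3 * (p * conj xb + q * w) +
      conj c3 * c2 * (p * U + q * V) + conj c2 * c3 * (p * U + q * V) +
      conj c3 * c3 * (p * (p * U + q * V) + q * (n * w + (p * V + q * U))) := by
    intro c1 c2 c3
    simp only [Fin.sum_univ_three, Matrix.cons_val_zero, Matrix.cons_val_one, Matrix.cons_val]
    simp only [br_c2, br_c3, br_l1 hΛ, br_l4 hΛ, dl_C_mul, ← hF1, ← hF2, hzF1, br_add1, br_add4, br_c4,
      br_c1, Complex.conj_ofReal, ← hu1, ← hxb, hxc, hxc', ← hU, ← hV, ← hw, hU', hV']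
    ring
  have hTe : ∑ i, ∑ j, br Λ ((![F, F1, lin l * F1] : Fin 3 → _) i)
      ((![C (n : ℂ) * F1, C (2 * (p + q) : ℂ) * F2, C (-2 : ℂ) * F1] : Fin 3 → _) j)
      ((![C (n : ℂ) * F1, C (2 * (p + q) : ℂ) * F2, C (-2 : ℂ) * F1] : Fin 3 → _) i)
      ((![F, F1, lin l * F1] : Fin 3 → _) j) =
      n ^ 2 * u1 + 2 * n * q * (xb + conj xb) + 8 * q ^ 2 * (U - V) := by
    rw [hTe0]
    simp only [map_neg, map_mul, map_ofNat, map_add, Complex.conj_ofReal]
    ring
  rw [hTe] at hT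
  have hN := wr hΛ F1 F2
  have hW := wr hΛ F F1
  have hu1n := cr_nonneg hΛ hq.le hpq F F1
  have hu2n := cr_nonneg hΛ hq.le hpq F F2
  have hp2n := br_nonneg Λ F F2
  rw [← hu1] at hu1n hW
  rw [← hp1] at hW
  rw [← hu2] at hu2n
  rw [← hp2] at hp2n
  rw [← hU, ← hV] at hN
  rw [hH]
  have hTr : 0 ≤ n ^ 2 * u1.re + 4 * n * q * xb.re + 8 * q ^ 2 * (U.re - V.re) := by
    have : (n ^ 2 * u1 + 2 * n * q * (xb + conj xb) + 8 * q ^ 2 * (U - V) : ℂ).re =
        n ^ 2 * u1.re + 4 * n * q * xb.re + 8 * q ^ 2 * (U.re - V.re) := by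
      have h1 : (n ^ 2 * u1 + 2 * n * q * (xb + conj xb) + 8 * q ^ 2 * (U - V) : ℂ) =
        ((n ^ 2 : ℝ) : ℂ) * u1 + ((2 * n * q : ℝ) : ℂ) * (xb + conj xb) +
          ((8 * q ^ 2 : ℝ) : ℂ) * (U - V) := by
        push_cast
        ring
      rw [h1]
      simp only [Complex.add_re, Complex.re_ofReal_mul, Complex.sub_re, Complex.conj_re]
      ring
    rw [this] at hT
    exact hT
  have hHr : (2 * n * (p * u1 + q * p1) + (p ^ 2 + q ^ 2) * xb + p * q * (u2 + p2) : ℂ).re =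
      2 * n * (p * u1.re + q * p1.re) + (p ^ 2 + q ^ 2) * xb.re + p * q * (u2.re + p2.re) := by
    have h1 : (2 * n * (p * u1 + q * p1) + (p ^ 2 + q ^ 2) * xb + p * q * (u2 + p2) : ℂ) =
        ((2 * n * p : ℝ) : ℂ) * u1 + ((2 * n * q : ℝ) : ℂ) * p1 +
          ((p ^ 2 + q ^ 2 : ℝ) : ℂ) * xb + ((p * q : ℝ) : ℂ) * (u2 + p2) := by
      push_cast
      ring
    rw [h1]
    simp only [Complex.add_re, Complex.re_ofReal_mul]
    ring
  rw [hHr]
  have hp : 0 < p := lt_of_lt_of_le hq hpq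
  -- multiply by 4 n q
  have key : 0 ≤ (4 * n * q) * (2 * n * (p * u1.re + q * p1.re) + (p ^ 2 + q ^ 2) * xb.re +
      p * q * (u2.re + p2.re)) := by
    have e : (4 * n * q) * (2 * n * (p * u1.re + q * p1.re) + (p ^ 2 + q ^ 2) * xb.re +
      p * q * (u2.re + p2.re)) =
      n ^ 2 * u1.re * (8 * q * (p + q) - (p ^ 2 + q ^ 2)) +
      8 * n ^ 2 * q ^ 2 * (p1.re - u1.re) +
      (p ^ 2 + q ^ 2) * (n ^ 2 * u1.re + 4 * n * q * xb.re + 8 * q ^ 2 * (U.re - V.re)) +
      (p ^ 2 + q ^ 2) * (8 * q ^ 2 * (V.re - U.re)) +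
      4 * n * p * q ^ 2 * (u2.re + p2.re) := by
      ring
    rw [e]
    have t1 : 0 ≤ n ^ 2 * u1.re * (8 * q * (p + q) - (p ^ 2 + q ^ 2)) :=
      mul_nonneg (mul_nonneg (sq_nonneg _) hu1n) (by linarith)
    have t2 : 0 ≤ 8 * n ^ 2 * q ^ 2 * (p1.re - u1.re) :=
      mul_nonneg (by positivity) hW
    have t3 : 0 ≤ (p ^ 2 + q ^ 2) *
        (n ^ 2 * u1.re + 4 * n * q * xb.re + 8 * q ^ 2 * (U.re - V.re)) :=
      mul_nonneg (by positivity) hTr
    have t4 : 0 ≤ (p ^ 2 + q ^ 2) * (8 * q ^ 2 * (V.re - U.re)) :=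
      mul_nonneg (by positivity) (mul_nonneg (by positivity) hN)
    have t5 : 0 ≤ 4 * n * p * q ^ 2 * (u2.re + p2.re) :=
      mul_nonneg (by positivity) (add_nonneg hu2n hp2n)
    linarith
  exact nonneg_of_mul_nonneg_right key (by positivity)

/-- the leg inequality for two copies -/
theorem leg2 (hΛ : Two Λ p q) (hq : 0 < q) (hpq : q ≤ p) (h8 : p ^ 2 + q ^ 2 ≤ 8 * q * (p + q))
    (l : ι → ℂ) (F : MvPolynomial ι ℂ) :
    (p + q) * (br Λ (lin l * F) (lin l * F) (lin l * F) (lin l * F)).re ≤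
      (p ^ 2 + q ^ 2) * ((br Λ F (lin l * F) (dl l (lin l * F)) (lin l * F)).re +
        (br Λ F (lin l * F) (lin l * F) (dl l (lin l * F))).re) := by
  set P := lin l * F with hP
  have hH := heart hΛ hq hpq h8 l F
  rw [← hP] at hH
  set J11 := br Λ F P (dl l P) P with hJ11
  set J12 := br Λ F P P (dl l P) with hJ12
  set H := br Λ P (dl l (dl l P)) F F with hHd
  have hnr : br Λ P P P P = p * J11 + q * J12 := by
    conv_lhs => rw [hP]
    rw [br_l1 hΛ]
  have h12 : conj J12 = p * H + q * br Λ (dl l P) (dl l P) F F := by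
    rw [hJ12, br_conj]
    conv_lhs => rw [hP]
    rw [← hP, br_l4 hΛ]
  have h11 : conj J11 = p * br Λ (dl l P) (dl l P) F F + q * H := by
    rw [hJ11, br_conj]
    have : br Λ (dl l P) P F P = br Λ (dl l P) P F (lin l * F) := by rw [← hP]
    rw [this, br_l4 hΛ, hHd, br_swap hΛ P]
  have h12r : J12.re = p * H.re + q * (br Λ (dl l P) (dl l P) F F).re := by
    have := congrArg Complex.re h12
    simpa [Complex.add_re, Complex.re_ofReal_mul] using this
  have h11r : J11.re = p * (br Λ (dl l P) (dl l P) F F).re + q * H.re := by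
    have := congrArg Complex.re h11
    simpa [Complex.add_re, Complex.re_ofReal_mul] using this
  have hnr' : (br Λ P P P P).re = p * J11.re + q * J12.re := by
    have := congrArg Complex.re hnr
    simpa [Complex.add_re, Complex.re_ofReal_mul] using this
  rw [hnr']
  have hd : p * J12.re - q * J11.re = (p ^ 2 - q ^ 2) * H.re := by
    rw [h12r, h11r]; ring
  have hp : 0 < p := lt_of_lt_of_le hq hpq
  have h1 : 0 ≤ (p - q) * ((p ^ 2 - q ^ 2) * H.re) := by
    apply mul_nonneg (by linarith)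
    apply mul_nonneg _ hH
    nlinarith
  rw [← hd] at h1
  nlinarith

end Pool.Agent.helper61.TCM
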